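import Mathlib.Algebra.AffineMonoid.Basic
import Mathlib.Algebra.Algebra.ZMod
import Mathlib.Topology.Sheaves.Presheaf
import Mathlib.RingTheory.Flat.TorsionFree
import Mathlib.Data.Int.Star
import Mathlib.Algebra.Order.Ring.Star
import Mathlib.RingTheory.PicardGroup
import Mathlib.FieldTheory.Finite.Basic
import Mathlib.Tactic.Bound
import Mathlib.Analysis.InnerProductSpace.Basic
import Mathlib.Algebra.Order.Star.Real
import Mathlib.RingTheory.PiTensorProduct
import Mathlib.RingTheory.SimpleRing.Principal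
import Mathlib.RingTheory.TotallySplit
import Mathlib.RingTheory.Etale.Weakly
import Mathlib.RingTheory.Henselian
import Mathlib.RingTheory.RegularLocalRing.Defs
import Mathlib.Tactic.Polynomial.Basic

-- ======== part 0: formerly Pool.Agent.MP_4dad27_co.Basic
section MrgPart0

set_option autoImplicit false

/-! Basic notions for the proof of Nivat's conjecture: difference operators, patterns,
lattice convex sets, counting lemmas and the Morse-Hedlund theorem. -/

namespace Nivat28

open Finset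

/-- difference operator -/
def D {A : Type} [AddCommGroup A] (v : ℤ × ℤ) (f : ℤ × ℤ → A) : ℤ × ℤ → A :=
  fun x => f (x + v) - f x

/-- `f` is annihilated by the product of the difference operators along the list -/
def Kill {A : Type} [AddCommGroup A] : List (ℤ × ℤ) → (ℤ × ℤ → A) → Prop
  | [], f => ∀ x, f x = 0
  | v :: L, f => Kill L (D v f)

/-- `w` is a period vector -/
def Per {A : Type} (w : ℤ × ℤ) (f : ℤ × ℤ → A) : Prop := ∀ x, f (x + w) = f x

/-- pattern of `c` on `S` at position `q` -/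
def pat {A : Type} [Zero A] (c : ℤ × ℤ → A) (S : Finset (ℤ × ℤ)) (q : ℤ × ℤ) : ℤ × ℤ → A :=
  fun s => if s ∈ S then c (s + q) else 0

/-- number of patterns -/
noncomputable def P {A : Type} [Zero A] (c : ℤ × ℤ → A) (S : Finset (ℤ × ℤ)) : ℕ :=
  (Set.range (pat c S)).ncard

/-- lattice convex finite sets -/
def LC (S : Finset (ℤ × ℤ)) : Prop :=
  ∃ C : Set (ℝ × ℝ), Convex ℝ C ∧ ∀ x : ℤ × ℤ, x ∈ S ↔ ((x.1 : ℝ), (x.2 : ℝ)) ∈ C

lemma pat_eq_iff {A : Type} [Zero A] (c c' : ℤ × ℤ → A) (S : Finset (ℤ × ℤ)) (q q' : ℤ × ℤ) :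
    pat c S q = pat c' S q' ↔ ∀ s ∈ S, c (s + q) = c' (s + q') := by
  constructor
  · intro h s hs
    have := congrFun h s
    simpa [pat, hs] using this
  · intro h
    funext s
    by_cases hs : s ∈ S
    · simp [pat, hs, h s hs]
    · simp [pat, hs]

lemma finite_range_pat {A : Type} [Zero A] [Finite A] (c : ℤ × ℤ → A) (S : Finset (ℤ × ℤ)) :
    (Set.range (pat c S)).Finite := by
  classical
  let Ψ : (S → A) → (ℤ × ℤ → A) := fun g s => if h : s ∈ S then g ⟨s, h⟩ else 0
  refine (Set.finite_range Ψ).subset ?_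
  rintro _ ⟨q, rfl⟩
  refine ⟨fun s => c (s.1 + q), ?_⟩
  funext s
  by_cases hs : s ∈ S
  · simp [Ψ, pat, hs]
  · simp [Ψ, pat, hs]

lemma exists_factor {ι α β : Type} [Nonempty ι] (A : ι → α) (B : ι → β)
    (h : ∀ q q', A q = A q' → B q = B q') : ∃ Ψ : α → β, ∀ q, Ψ (A q) = B q := by
  classical
  refine ⟨fun a => if ha : ∃ q, A q = a then B ha.choose else B (Classical.arbitrary ι), ?_⟩
  intro q
  have ha : ∃ q', A q' = A q := ⟨q, rfl⟩
  simp only [dif_pos ha]
  exact h _ _ ha.choose_spec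

lemma range_eq_image {ι α β : Type} (A : ι → α) (B : ι → β) (Ψ : α → β)
    (h : ∀ q, Ψ (A q) = B q) : Set.range B = Ψ '' Set.range A := by
  ext b
  constructor
  · rintro ⟨q, rfl⟩
    exact ⟨A q, ⟨q, rfl⟩, h q⟩
  · rintro ⟨_, ⟨q, rfl⟩, rfl⟩
    exact ⟨q, (h q).symm⟩

lemma ncard_range_le {ι α β : Type} [Nonempty ι] (A : ι → α) (B : ι → β)
    (hA : (Set.range A).Finite) (h : ∀ q q', A q = A q' → B q = B q') :
    (Set.range B).ncard ≤ (Set.range A).ncard := by
  obtain ⟨Ψ, hΨ⟩ := exists_factor A B h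
  rw [range_eq_image A B Ψ hΨ]
  exact Set.ncard_image_le hA

lemma inj_of_ncard_range_le {ι α β : Type} [Nonempty ι] (A : ι → α) (B : ι → β)
    (hA : (Set.range A).Finite) (h : ∀ q q', A q = A q' → B q = B q')
    (hle : (Set.range A).ncard ≤ (Set.range B).ncard) :
    ∀ q q', B q = B q' → A q = A q' := by
  obtain ⟨Ψ, hΨ⟩ := exists_factor A B h
  have h1 := range_eq_image A B Ψ hΨ
  have h2 : (Ψ '' Set.range A).ncard = (Set.range A).ncard := by
    apply le_antisymm (Set.ncard_image_le hA)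
    rw [← h1]; exact hle
  have h3 := Set.injOn_of_ncard_image_eq h2 hA
  intro q q' hq
  apply h3 ⟨q, rfl⟩ ⟨q', rfl⟩
  rw [hΨ, hΨ, hq]

/-- counting ambiguous patterns -/
lemma ncard_amb {ι κ α β : Type} [Nonempty ι] (A : ι → α) (B : ι → β)
    (hA : (Set.range A).Finite) (h : ∀ q q', A q = A q' → B q = B q')
    (q q' : κ → ι) (hB : ∀ x, B (q x) = B (q' x)) (hne : ∀ x, A (q x) ≠ A (q' x)) :
    (Set.range B).ncard + (Set.range (fun x => B (q x))).ncard ≤ (Set.range A).ncard := by
  classical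
  obtain ⟨Ψ, hΨ⟩ := exists_factor A B h
  have h1 := range_eq_image A B Ψ hΨ
  have hBf : (Set.range B).Finite := by rw [h1]; exact hA.image _
  have hsub : Set.range (fun x => B (q x)) ⊆ Set.range B := by
    rintro _ ⟨x, rfl⟩; exact ⟨q x, rfl⟩
  have hCf : (Set.range (fun x => B (q x))).Finite := hBf.subset hsub
  rw [Set.ncard_eq_toFinset_card _ hA, Set.ncard_eq_toFinset_card _ hBf,
    Set.ncard_eq_toFinset_card _ hCf]
  have hmaps : ∀ a ∈ hA.toFinset, Ψ a ∈ hBf.toFinset := by
    intro a ha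
    rw [Set.Finite.mem_toFinset] at ha ⊢
    rw [h1]; exact ⟨a, ha, rfl⟩
  rw [Finset.card_eq_sum_card_fiberwise (f := Ψ) (s := hA.toFinset) (t := hBf.toFinset) hmaps]
  have hsub' : hCf.toFinset ⊆ hBf.toFinset := by
    intro b hb
    rw [Set.Finite.mem_toFinset] at hb ⊢
    exact hsub hb
  have e1 : hBf.toFinset.card + hCf.toFinset.card
      = ∑ b ∈ hBf.toFinset, (1 + if b ∈ hCf.toFinset then 1 else 0) := by
    rw [Finset.sum_add_distrib, Finset.sum_ite_mem, Finset.inter_eq_right.mpr hsub']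
    simp
  rw [e1]
  apply Finset.sum_le_sum
  intro b hb
  split_ifs with hc
  · rw [Set.Finite.mem_toFinset] at hc
    obtain ⟨x, rfl⟩ := hc
    have : ({A (q x), A (q' x)} : Finset α) ⊆
        hA.toFinset.filter (fun a => Ψ a = B (q x)) := by
      intro a ha
      rw [Finset.mem_insert, Finset.mem_singleton] at ha
      rw [Finset.mem_filter, Set.Finite.mem_toFinset]
      rcases ha with rfl | rfl
      · exact ⟨⟨_, rfl⟩, hΨ _⟩
      · exact ⟨⟨_, rfl⟩, by rw [hΨ, hB]⟩
    have h2 := Finset.card_le_card this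
    rw [Finset.card_pair (hne x)] at h2
    exact h2
  · rw [Set.Finite.mem_toFinset] at hb
    obtain ⟨x, rfl⟩ := hb
    have : (hA.toFinset.filter (fun a => Ψ a = B x)).Nonempty :=
      ⟨A x, by
        rw [Finset.mem_filter, Set.Finite.mem_toFinset]
        exact ⟨⟨_, rfl⟩, hΨ _⟩⟩
    have := this.card_pos
    omega

/-- a functional supported on `U` that kills all differences inside the fibres -/
lemma exists_functional {F β : Type} [Field F] (R : Set (ℤ × ℤ → F)) (hR : R.Finite)
    (Φ : (ℤ × ℤ → F) → β) (U : Finset (ℤ × ℤ)) (hlt : R.ncard < (Φ '' R).ncard + U.card) :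
    ∃ g : ℤ × ℤ → F, (∃ u ∈ U, g u ≠ 0) ∧
      ∀ x ∈ R, ∀ y ∈ R, Φ x = Φ y → ∑ u ∈ U, g u * (x u - y u) = 0 := by
  classical
  let rep : β → (ℤ × ℤ → F) := fun b => if h : ∃ x ∈ R, Φ x = b then h.choose else 0
  have hrep : ∀ x ∈ R, rep (Φ x) ∈ R ∧ Φ (rep (Φ x)) = Φ x := by
    intro x hx
    have h : ∃ y ∈ R, Φ y = Φ x := ⟨x, hx, rfl⟩
    simp only [rep, dif_pos h]
    exact h.choose_spec
  let N := hR.toFinset.filter (fun x => x ≠ rep (Φ x))
  have hN : N.card + (Φ '' R).ncard ≤ R.ncard := by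
    let N' := hR.toFinset.filter (fun x => ¬ (x ≠ rep (Φ x)))
    have h1 : N.card + N'.card = hR.toFinset.card := Finset.card_filter_add_card_filter_not _
    have h2 : (Φ '' R) ⊆ Φ '' (N' : Set (ℤ × ℤ → F)) := by
      rintro _ ⟨x, hx, rfl⟩
      refine ⟨rep (Φ x), ?_, (hrep x hx).2⟩
      simp only [N', Finset.coe_filter, Set.Finite.mem_toFinset, Set.mem_ofPred_eq, not_not]
      exact ⟨(hrep x hx).1, by rw [(hrep x hx).2]⟩
    have h3 : (Φ '' R).ncard ≤ (Φ '' (N' : Set (ℤ × ℤ → F))).ncard :=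
      Set.ncard_le_ncard h2 ((Finset.finite_toSet _).image _)
    have h4 : (Φ '' (N' : Set (ℤ × ℤ → F))).ncard ≤ N'.card := by
      have := Set.ncard_image_le (f := Φ) (s := (N' : Set (ℤ × ℤ → F))) (Finset.finite_toSet _)
      rwa [Set.ncard_coe_finset] at this
    rw [Set.ncard_eq_toFinset_card _ hR]
    omega
  let T : (U → F) →ₗ[F] (N → F) :=
    { toFun := fun g x => ∑ u : U, g u * (x.1 u - rep (Φ x.1) u)
      map_add' := by
        intro g g'; funext x
        simp [add_mul, Finset.sum_add_distrib]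
      map_smul' := by
        intro a g; funext x
        simp [Finset.mul_sum, mul_assoc] }
  have hker : LinearMap.ker T ≠ ⊥ := by
    apply LinearMap.ker_ne_bot_of_finrank_lt
    simp only [Module.finrank_fintype_fun_eq_card, Fintype.card_coe]
    omega
  obtain ⟨g, hg, hg0⟩ := Submodule.exists_mem_ne_zero_of_ne_bot hker
  rw [LinearMap.mem_ker] at hg
  let g' : ℤ × ℤ → F := fun u => if h : u ∈ U then g ⟨u, h⟩ else 0
  have key : ∀ x ∈ R, ∑ u ∈ U, g' u * (x u - rep (Φ x) u) = 0 := by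
    intro x hx
    by_cases hxr : x = rep (Φ x)
    · rw [← hxr]; simp
    · have hxN : x ∈ N := by
        simp only [N, Finset.mem_filter, Set.Finite.mem_toFinset]
        exact ⟨hx, hxr⟩
      have := congrFun hg ⟨x, hxN⟩
      simp only [T, LinearMap.coe_mk, AddHom.coe_mk, Pi.zero_apply] at this
      rw [← this, ← Finset.sum_coe_sort U]
      apply Finset.sum_congr rfl
      intro u _
      simp [g']
  refine ⟨g', ?_, ?_⟩
  · by_contra hcon
    push Not at hcon
    apply hg0
    funext u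
    have := hcon u.1 u.2
    simpa [g'] using this
  · intro x hx y hy hxy
    have h1 := key x hx
    have h2 := key y hy
    rw [← hxy] at h2
    have : ∑ u ∈ U, g' u * (x u - y u)
        = ∑ u ∈ U, g' u * (x u - rep (Φ x) u) - ∑ u ∈ U, g' u * (y u - rep (Φ x) u) := by
      rw [← Finset.sum_sub_distrib]
      apply Finset.sum_congr rfl
      intro u _
      ring
    rw [this, h1, h2, sub_zero]

/-- a deterministic bi-infinite sequence with finitely many states is periodic -/
lemma det_periodic {α : Type} (s : ℤ → α) (hs : (Set.range s).Finite)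
    (h : ∀ m n, s m = s n → s (m + 1) = s (n + 1)) : ∃ K : ℕ, 0 < K ∧ ∀ n, s (n + K) = s n := by
  classical
  have h1 : ∀ (j : ℕ) m n, s m = s n → s (m + j) = s (n + j) := by
    intro j
    induction j with
    | zero => intro m n hmn; simpa using hmn
    | succ j ih =>
      intro m n hmn
      have := h _ _ (ih m n hmn)
      push_cast
      rw [← add_assoc, ← add_assoc]
      exact this
  set r := hs.toFinset.card with hr
  refine ⟨r.factorial, Nat.factorial_pos _, fun n => ?_⟩
  have hmaps : ∀ j ∈ Finset.range (r + 1), s (n - j) ∈ hs.toFinset := by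
    intro j _
    rw [Set.Finite.mem_toFinset]; exact ⟨_, rfl⟩
  have hex : ∃ i j : ℕ, i < j ∧ j ≤ r ∧ s (n - i) = s (n - j) := by
    obtain ⟨i, hi, j, hj, hij, he⟩ := Finset.exists_ne_map_eq_of_card_lt_of_maps_to
      (s := Finset.range (r + 1)) (t := hs.toFinset) (by simp [hr]) hmaps
    rw [Finset.mem_range] at hi hj
    rcases lt_or_gt_of_ne hij with hlt | hlt
    · exact ⟨i, j, hlt, by omega, he⟩
    · exact ⟨j, i, hlt, by omega, he.symm⟩
  obtain ⟨i, j, hij, hjr, he⟩ := hex
  have h2 : ∀ m : ℕ, s (n + m + (j - i : ℕ)) = s (n + m) := by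
    intro m
    have := h1 (j + m) _ _ he
    rw [Nat.cast_sub hij.le]
    push_cast at this
    have e1 : n - i + (j + m) = n + m + (j - i) := by ring
    have e2 : n - j + (j + m) = n + m := by ring
    rw [e1, e2] at this
    exact this
  have h3 : ∀ t : ℕ, s (n + ((j - i) * t : ℕ)) = s n := by
    intro t
    induction t with
    | zero => simp
    | succ t ih =>
      have := h2 ((j - i) * t)
      rw [ih] at this
      rw [← this]
      congr 1
      push_cast
      ring
  obtain ⟨t, ht⟩ : (j - i) ∣ r.factorial := Nat.dvd_factorial (by omega) (by omega)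
  rw [ht]
  exact h3 t

/-- words of length `i` -/
def word {α : Type} [Zero α] (Γ : ℤ → α) (i : ℕ) (x : ℤ) : ℕ → α :=
  fun j => if j < i then Γ (x + j) else 0

lemma word_eq_iff {α : Type} [Zero α] (Γ : ℤ → α) (i : ℕ) (x y : ℤ) :
    word Γ i x = word Γ i y ↔ ∀ j < i, Γ (x + j) = Γ (y + j) := by
  constructor
  · intro h j hj
    have := congrFun h j
    simpa [word, hj] using this
  · intro h
    funext j
    by_cases hj : j < i
    · simp [word, hj, h j hj]
    · simp [word, hj]

/-- Morse-Hedlund -/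
lemma morse_hedlund {α : Type} [Zero α] (Γ : ℤ → α) (a : ℕ)
    (hf : (Set.range (word Γ a)).Finite) (hc : (Set.range (word Γ a)).ncard ≤ a) :
    ∃ K : ℕ, 0 < K ∧ ∀ n, Γ (n + K) = Γ n := by
  by_contra hcon
  have hres : ∀ i, ∀ q q', word Γ (i + 1) q = word Γ (i + 1) q' → word Γ i q = word Γ i q' := by
    intro i q q' h
    rw [word_eq_iff] at h ⊢
    intro j hj
    exact h j (by omega)
  have key : ∀ i, (Set.range (word Γ i)).Finite → i < (Set.range (word Γ i)).ncard := by
    intro i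
    induction i with
    | zero =>
      intro hfin
      exact (Set.ncard_pos hfin).mpr ⟨_, 0, rfl⟩
    | succ i ih =>
      intro hfin
      obtain ⟨Ψ, hΨ⟩ := exists_factor _ _ (hres i)
      have hfin' : (Set.range (word Γ i)).Finite := by
        rw [range_eq_image _ _ Ψ hΨ]; exact hfin.image _
      have h1 := ih hfin'
      by_contra hle
      have h2 := inj_of_ncard_range_le _ _ hfin (hres i) (by omega)
      obtain ⟨K, hK, hper⟩ := det_periodic (word Γ (i + 1)) hfin (by
        intro m n hmn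
        apply h2
        rw [word_eq_iff] at hmn ⊢
        intro j hj
        have := hmn (j + 1) (by omega)
        push_cast at this
        have e1 : m + 1 + j = m + (j + 1) := by ring
        have e2 : n + 1 + j = n + (j + 1) := by ring
        rw [e1, e2]; exact this)
      apply hcon
      refine ⟨K, hK, fun n => ?_⟩
      have := (word_eq_iff Γ (i + 1) _ _).mp (hper n) 0 (by omega)
      simpa using this
  have := key a hf
  omega

section KillLemmas

variable {A B : Type} [AddCommGroup A] [AddCommGroup B]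

lemma D_comm (u v : ℤ × ℤ) (f : ℤ × ℤ → A) : D u (D v f) = D v (D u f) := by
  funext x
  simp only [D]
  rw [add_right_comm x u v]
  abel

lemma per_iff_D (w : ℤ × ℤ) (f : ℤ × ℤ → A) : Per w f ↔ ∀ x, D w f x = 0 := by
  simp [Per, D, sub_eq_zero]

lemma Per.zsmul {α : Type} {w : ℤ × ℤ} {f : ℤ × ℤ → α} (h : Per w f) (k : ℤ) :
    Per (k • w) f := by
  induction k using Int.induction_on with
  | zero => intro x; simp
  | succ k ih =>
    intro x
    rw [add_smul, one_smul, ← add_assoc, h, ih]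
  | pred k ih =>
    intro x
    have := h (x + (-(k : ℤ) - 1) • w)
    rw [← this, add_assoc]
    have e : (-(k : ℤ) - 1) • w + w = (-(k : ℤ)) • w := by
      rw [sub_smul, one_smul]; abel
    rw [e, ih]

lemma per_D_comm {u v : ℤ × ℤ} {f : ℤ × ℤ → A} (h : Per u (D v f)) : Per v (D u f) := by
  rw [per_iff_D] at h ⊢
  rw [D_comm]; exact h

/-- an additive map that commutes with the difference operators preserves `Kill` -/
lemma Kill.map (Φ : (ℤ × ℤ → A) → (ℤ × ℤ → B)) (h0 : Φ (fun _ => 0) = fun _ => 0)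
    (hD : ∀ v f, Φ (D v f) = D v (Φ f)) :
    ∀ (L : List (ℤ × ℤ)) (f : ℤ × ℤ → A), Kill L f → Kill L (Φ f)
  | [], f, h => by
    have : f = fun _ => 0 := funext h
    intro x
    rw [this, h0]
  | v :: L, f, h => by
    have := Kill.map Φ h0 hD L (D v f) h
    rw [hD] at this
    exact this

lemma Kill.sub : ∀ (L : List (ℤ × ℤ)) (f g : ℤ × ℤ → A), Kill L f → Kill L g →
    Kill L (fun x => f x - g x)
  | [], f, g, hf, hg => by
    intro x
    show f x - g x = 0
    rw [hf x, hg x, sub_zero]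
  | v :: L, f, g, hf, hg => by
    have := Kill.sub L (D v f) (D v g) hf hg
    have e : (fun x => D v f x - D v g x) = D v (fun x => f x - g x) := by
      funext x; simp only [D]; abel
    rw [e] at this
    exact this

/-- `d` is in the orbit closure of `c` -/
def Loc {α : Type} (c d : ℤ × ℤ → α) : Prop :=
  ∀ S : Finset (ℤ × ℤ), ∃ q, ∀ s ∈ S, d s = c (s + q)

lemma Loc.D {c d : ℤ × ℤ → A} (h : Loc c d) (v : ℤ × ℤ) : Loc (D v c) (D v d) := by
  classical
  intro S
  obtain ⟨q, hq⟩ := h (S ∪ S.image (· + v))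
  refine ⟨q, fun s hs => ?_⟩
  simp only [Nivat28.D]
  rw [hq s (Finset.mem_union_left _ hs),
    hq (s + v) (Finset.mem_union_right _ (Finset.mem_image_of_mem _ hs)), add_right_comm]

lemma Kill.loc : ∀ (L : List (ℤ × ℤ)) (c d : ℤ × ℤ → A), Loc c d → Kill L c → Kill L d
  | [], c, d, h, hc => by
    intro x
    obtain ⟨q, hq⟩ := h {x}
    rw [hq x (Finset.mem_singleton_self x)]
    exact hc _
  | v :: L, c, d, h, hc => Kill.loc L _ _ (h.D v) hc

lemma Loc.pat_mem {α : Type} [Zero α] {c d : ℤ × ℤ → α} (h : Loc c d) (S : Finset (ℤ × ℤ))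
    (x : ℤ × ℤ) : ∃ q, pat d S x = pat c S q := by
  classical
  obtain ⟨q, hq⟩ := h (S.image (· + x))
  refine ⟨x + q, ?_⟩
  rw [pat_eq_iff]
  intro s hs
  rw [hq (s + x) (Finset.mem_image_of_mem _ hs), add_assoc]

/-- two parallel difference operators can be merged when the exponent is finite -/
lemma per_of_per_D (p : ℕ) (hp : ∀ a : A, p • a = 0) {w : ℤ × ℤ} {f : ℤ × ℤ → A}
    (h : Per w (D w f)) : Per ((p : ℤ) • w) f := by
  have key : ∀ k : ℕ, ∀ x, f (x + (k : ℤ) • w) = f x + k • D w f x := by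
    intro k
    induction k with
    | zero => intro x; simp
    | succ k ih =>
      intro x
      have h1 := h.zsmul k x
      have h2 : f (x + (k : ℤ) • w + w) = f (x + (k : ℤ) • w) + D w f (x + (k : ℤ) • w) := by
        simp [D]
      push_cast
      rw [add_smul, one_smul, ← add_assoc, h2, h1, ih, succ_nsmul, add_assoc]
  intro x
  rw [key, hp, add_zero]

lemma merge_per (p : ℕ) (hp : ∀ a : A, p • a = 0) {u v : ℤ × ℤ} {f : ℤ × ℤ → A} (a b : ℤ)
    (hab : a • u = b • v) (h : Per u (D v f)) : Per ((p : ℤ) • (a • u)) f := by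
  apply per_of_per_D p hp
  have h1 : Per v (D (a • u) f) := per_D_comm (h.zsmul a)
  have h2 := h1.zsmul b
  rw [← hab] at h2
  exact h2

end KillLemmas

end Nivat28

end MrgPart0

-- ======== part 1: formerly Pool.Agent.MP_4dad27_co.KS
section MrgPart1

set_option autoImplicit false

/-! The Kari-Szabados theorem: an integer configuration of low complexity is annihilated by a
product of difference operators. -/

namespace Nivat28

open Finset

/-- shift operators as a monoid homomorphism -/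
def shiftHom (K : Type) [CommRing K] :
    Multiplicative (ℤ × ℤ) →* Module.End K (ℤ × ℤ → K) where
  toFun v :=
    { toFun := fun f x => f (x + v.toAdd)
      map_add' := fun _ _ => rfl
      map_smul' := fun _ _ => rfl }
  map_one' := by
    ext f x; simp
  map_mul' u v := by
    ext f x
    simp [add_assoc]

lemma frob_step (p : ℕ) [Fact p.Prime] (S : Finset (ℤ × ℤ)) (a : ℤ × ℤ → ZMod p)
    (w : ℤ × ℤ → ℤ × ℤ) (f : ℤ × ℤ → ZMod p)
    (h : ∀ x, ∑ s ∈ S, a s * f (x + w s) = 0) :
    ∀ x, ∑ s ∈ S, a s * f (x + p • w s) = 0 := by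
  have : CharP (AddMonoidAlgebra (ZMod p) (ℤ × ℤ)) p := charP_of_injective_algebraMap' (ZMod p) p
  let ρ := AddMonoidAlgebra.lift (ZMod p) (Module.End (ZMod p) (ℤ × ℤ → ZMod p)) (ℤ × ℤ)
    (shiftHom (ZMod p))
  have hρ : ∀ (u : ℤ × ℤ → ℤ × ℤ) x,
      ρ (∑ s ∈ S, AddMonoidAlgebra.single (u s) (a s)) f x = ∑ s ∈ S, a s * f (x + u s) := by
    intro u x
    simp [ρ, map_sum, shiftHom]
  let F : AddMonoidAlgebra (ZMod p) (ℤ × ℤ) := ∑ s ∈ S, AddMonoidAlgebra.single (w s) (a s)
  have hF : ρ F f = 0 := by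
    funext x
    rw [hρ]; exact h x
  have hFp : F ^ p = ∑ s ∈ S, AddMonoidAlgebra.single (p • w s) (a s) := by
    rw [sum_pow_char]
    apply Finset.sum_congr rfl
    intro s _
    rw [AddMonoidAlgebra.single_pow, ZMod.pow_card]
  intro x
  rw [← hρ (fun s => p • w s), ← hFp]
  obtain ⟨q, hq⟩ : ∃ q, p = q + 1 := ⟨p - 1, by have := (Fact.out : p.Prime).pos; omega⟩
  have : F ^ p = F ^ q * F := by rw [← pow_succ, ← hq]
  rw [this, map_mul, Module.End.mul_apply, hF, map_zero]
  rfl

lemma dilate (S : Finset (ℤ × ℤ)) (a : ℤ × ℤ → ℤ) (f : ℤ × ℤ → ℤ) (B : ℕ)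
    (hB : ∀ x, |f x| ≤ B) (h : ∀ x, ∑ s ∈ S, a s * f (x + s) = 0) :
    ∃ r : ℕ, 0 < r ∧ ∀ k : ℕ, ∀ x, ∑ s ∈ S, a s * f (x + (1 + k * r) • s) = 0 := by
  set t : ℕ := ∑ s ∈ S, (a s).natAbs * B with ht
  have key : ∀ n : ℕ, n ≠ 0 → (∀ p : ℕ, p.Prime → p ∣ n → t < p) →
      ∀ x, ∑ s ∈ S, a s * f (x + n • s) = 0 := by
    intro n
    induction n using induction_on_primes with
    | zero => intro h0; exact absurd rfl h0
    | one => intro _ _ x; simpa using h x
    | prime_mul p n hp ih =>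
      intro h0 hdiv x
      have : Fact p.Prime := ⟨hp⟩
      have hn : n ≠ 0 := by rintro rfl; simp at h0
      have ih' := ih hn (fun q hq hqn => hdiv q hq (Dvd.dvd.mul_left hqn p))
      have h1 := frob_step p S (fun s => (a s : ZMod p)) (fun s => n • s)
        (fun x => (f x : ZMod p)) (by
          intro x
          have := congrArg (Int.cast : ℤ → ZMod p) (ih' x)
          push_cast at this
          exact this) x
      have h2 : ((∑ s ∈ S, a s * f (x + (p * n) • s) : ℤ) : ZMod p) = 0 := by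
        push_cast
        rw [← h1]
        apply Finset.sum_congr rfl
        intro s _
        rw [mul_smul]
      rw [ZMod.intCast_zmod_eq_zero_iff_dvd] at h2
      apply Int.eq_zero_of_abs_lt_dvd h2
      have h3 : |∑ s ∈ S, a s * f (x + (p * n) • s)| ≤ (t : ℤ) := by
        refine (Finset.abs_sum_le_sum_abs _ _).trans ?_
        rw [ht]
        push_cast
        apply Finset.sum_le_sum
        intro s _
        rw [abs_mul]
        exact mul_le_mul_of_nonneg_left (hB _) (abs_nonneg _)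
      have h4 := hdiv p hp (Dvd.intro _ rfl)
      have : (t : ℤ) < p := by exact_mod_cast h4
      omega
  refine ⟨t.factorial, Nat.factorial_pos _, fun k => key _ (by omega) ?_⟩
  intro p hp hdiv
  by_contra hle
  have h1 : p ∣ t.factorial := Nat.dvd_factorial hp.pos (by omega)
  have h2 : p ∣ 1 := (Nat.dvd_add_left (Dvd.dvd.mul_left h1 k)).mp hdiv
  exact hp.one_lt.ne' (Nat.dvd_one.mp h2)

lemma eliminate (w : ℤ × ℤ → ℤ × ℤ) (hw : Function.Injective w) (v0 : ℤ × ℤ) :
    ∀ (V : Finset (ℤ × ℤ)), v0 ∉ V → ∀ (f : ℤ × ℤ → ℤ × ℤ → ℤ),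
      (∀ k : ℕ, ∀ x, f v0 (x + k • w v0) + ∑ v ∈ V, f v (x + k • w v) = 0) →
      ∃ L : List (ℤ × ℤ), (∀ v ∈ L, v ≠ 0) ∧ Kill L (f v0) := by
  classical
  intro V
  induction V using Finset.induction_on with
  | empty =>
    intro _ f h
    refine ⟨[], by simp, fun x => ?_⟩
    simpa using h 0 x
  | insert v1 V hv1 ih =>
    intro hv0 f h
    rw [Finset.mem_insert, not_or] at hv0
    obtain ⟨L, hL, hK⟩ := ih hv0.2 (fun v => D (w v - w v1) (f v)) (by
      intro k x
      have h1 := h (k + 1) (x - w v1)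
      have h2 := h k x
      rw [Finset.sum_insert hv1] at h1 h2
      have e : ∀ v, x + k • w v + (w v - w v1) = x - w v1 + (k + 1) • w v := by
        intro v; rw [add_smul, one_smul]; abel
      have e1 : x - w v1 + (k + 1) • w v1 = x + k • w v1 := by
        rw [add_smul, one_smul]; abel
      simp only [D, e, Finset.sum_sub_distrib]
      rw [e1] at h1
      linarith)
    refine ⟨(w v0 - w v1) :: L, ?_, hK⟩
    intro v hv
    rw [List.mem_cons] at hv
    rcases hv with rfl | hv
    · intro h0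
      exact hv0.1 (hw (sub_eq_zero.mp h0))
    · exact hL v hv

lemma Kill.cancel (a : ℤ) (ha : a ≠ 0) (t : ℤ × ℤ) : ∀ (L : List (ℤ × ℤ)) (f : ℤ × ℤ → ℤ),
    Kill L (fun x => a * f (x + t)) → Kill L f
  | [], f, h => by
    intro x
    have := h (x - t)
    simpa [ha] using this
  | v :: L, f, h => by
    apply Kill.cancel a ha t L (D v f)
    have e : (fun x => a * D v f (x + t)) = D v (fun x => a * f (x + t)) := by
      funext x
      simp only [D]
      rw [add_right_comm x t v]; ring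
    rw [e]; exact h

lemma exists_affine (c : ℤ × ℤ → ℤ) (S : Finset (ℤ × ℤ)) (hf : (Set.range (pat c S)).Finite)
    (h : P c S ≤ S.card) :
    ∃ (a : ℤ × ℤ → ℤ) (a0 : ℤ), (∃ v ∈ S, a v ≠ 0) ∧ ∀ q, ∑ s ∈ S, a s * c (q + s) = a0 := by
  classical
  let T : (Option S → ℤ) →ₗ[ℤ] (hf.toFinset → ℤ) :=
    { toFun := fun g x => ∑ u : S, g (some u) * x.1 u - g none
      map_add' := by
        intro g g'; funext x
        simp only [Pi.add_apply, add_mul, Finset.sum_add_distrib]; ring
      map_smul' := by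
        intro a g; funext x
        simp [Finset.mul_sum, mul_assoc, mul_sub] }
  have hinj : ¬ Function.Injective T := by
    intro hi
    have := LinearMap.finrank_le_finrank_of_injective hi
    simp only [Module.finrank_fintype_fun_eq_card, Fintype.card_option, Fintype.card_coe] at this
    rw [P, Set.ncard_eq_toFinset_card _ hf] at h
    omega
  rw [← LinearMap.ker_eq_bot] at hinj
  obtain ⟨g, hg, hg0⟩ := Submodule.exists_mem_ne_zero_of_ne_bot hinj
  rw [LinearMap.mem_ker] at hg
  let a : ℤ × ℤ → ℤ := fun u => if h : u ∈ S then g (some ⟨u, h⟩) else 0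
  have key : ∀ q, ∑ s ∈ S, a s * c (q + s) = g none := by
    intro q
    have hq : pat c S q ∈ hf.toFinset := by
      rw [Set.Finite.mem_toFinset]; exact ⟨q, rfl⟩
    have := congrFun hg ⟨_, hq⟩
    simp only [T, LinearMap.coe_mk, AddHom.coe_mk, Pi.zero_apply, sub_eq_zero] at this
    rw [← this, ← Finset.sum_coe_sort S]
    apply Finset.sum_congr rfl
    intro u _
    simp [a, pat, add_comm]
  refine ⟨a, g none, ?_, key⟩
  by_contra hcon
  push Not at hcon
  apply hg0
  funext u
  cases u with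
  | none =>
    rw [← key 0]
    apply Finset.sum_eq_zero
    intro s hs
    rw [hcon s hs, zero_mul]
  | some u =>
    have := hcon u.1 u.2
    simpa [a] using this

theorem exists_kill (c : ℤ × ℤ → ℤ) (B : ℕ) (hB : ∀ x, |c x| ≤ B) (S : Finset (ℤ × ℤ))
    (hf : (Set.range (pat c S)).Finite) (h : P c S ≤ S.card) :
    ∃ L : List (ℤ × ℤ), (∀ v ∈ L, v ≠ 0) ∧ Kill L c := by
  classical
  obtain ⟨a, a0, ⟨v0, hv0, ha⟩, hs⟩ := exists_affine c S hf h
  obtain ⟨r, hr, hd⟩ := dilate S a (D (1, 0) c) (2 * B) (by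
      intro x
      have h1 := hB (x + (1, 0))
      have h2 := hB x
      simp only [D]
      push_cast
      rw [abs_le] at h1 h2 ⊢
      constructor <;> linarith [h1.1, h1.2, h2.1, h2.2]) (by
      intro x
      simp only [D, mul_sub, Finset.sum_sub_distrib]
      have h1 := hs (x + (1, 0))
      have h2 := hs x
      simp only [add_right_comm x _ ((1 : ℤ), (0 : ℤ))]
      rw [h1, h2, sub_self])
  have hw : Function.Injective (fun v : ℤ × ℤ => r • v) := by
    intro u v huv
    have h1 := congrArg Prod.fst huv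
    have h2 := congrArg Prod.snd huv
    simp only [Prod.smul_fst, Prod.smul_snd, nsmul_eq_mul] at h1 h2
    have hr' : (r : ℤ) ≠ 0 := by exact_mod_cast hr.ne'
    exact Prod.ext (mul_left_cancel₀ hr' h1) (mul_left_cancel₀ hr' h2)
  obtain ⟨L, hL, hK⟩ := eliminate (fun v => r • v) hw v0 (S.erase v0) (Finset.notMem_erase _ _)
    (fun v x => a v * D (1, 0) c (x + v)) (by
      intro k x
      have := hd k x
      rw [← Finset.add_sum_erase S _ hv0] at this
      have e : ∀ v : ℤ × ℤ, x + k • r • v + v = x + (1 + k * r) • v := by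
        intro v; rw [add_smul, one_smul, mul_smul]; abel
      simp only [e]
      exact this)
  refine ⟨(1, 0) :: L, ?_, Kill.cancel (a v0) ha v0 L _ hK⟩
  intro v hv
  rw [List.mem_cons] at hv
  rcases hv with rfl | hv
  · simp
  · exact hL v hv

end Nivat28

end MrgPart1

-- ======== part 2: formerly Pool.Agent.MP_4dad27_co.Half
section MrgPart2

set_option autoImplicit false

/-! A non-periodic configuration has two elements of its orbit closure which agree on an open
half-plane and differ at the origin. -/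

namespace Nivat28

open Filter Topology

/-- inner product of a lattice vector with a real vector -/
def ip (x : ℤ × ℤ) (ν : ℝ × ℝ) : ℝ := (x.1 : ℝ) * ν.1 + (x.2 : ℝ) * ν.2

lemma ip_add (x y : ℤ × ℤ) (ν : ℝ × ℝ) : ip (x + y) ν = ip x ν + ip y ν := by
  simp only [ip, Prod.fst_add, Prod.snd_add]; push_cast; ring

lemma ip_zsmul (k : ℤ) (x : ℤ × ℤ) (ν : ℝ × ℝ) : ip (k • x) ν = k * ip x ν := by
  simp only [ip, Prod.smul_fst, Prod.smul_snd, smul_eq_mul]; push_cast; ring

/-- squared length -/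
def nsq (x : ℤ × ℤ) : ℕ := (x.1 ^ 2 + x.2 ^ 2).toNat

lemma nsq_cast (x : ℤ × ℤ) : (nsq x : ℤ) = x.1 ^ 2 + x.2 ^ 2 :=
  Int.toNat_of_nonneg (by positivity)

lemma exists_far {F : Type} [Finite F] (c : ℤ × ℤ → F) (hc : ∀ w, w ≠ 0 → ¬ Per w c) (n : ℕ) :
    ∃ q q' z : ℤ × ℤ, c (z + q) ≠ c (z + q') ∧ ((n : ℤ) < |z.1| ∨ (n : ℤ) < |z.2|) ∧
      ∀ x, nsq x < nsq z → c (x + q) = c (x + q') := by
  classical
  let Q : Finset (ℤ × ℤ) := Finset.Icc (-(n : ℤ)) n ×ˢ Finset.Icc (-(n : ℤ)) n
  obtain ⟨q, q', hne, he⟩ := Finite.exists_ne_map_eq_of_infinite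
    (fun q : ℤ × ℤ => fun s : Q => c (s.1 + q))
  have hex : ∃ m : ℕ, ∃ z, nsq z = m ∧ c (z + q) ≠ c (z + q') := by
    by_contra hcon
    push Not at hcon
    apply hc (q - q') (sub_ne_zero.mpr hne)
    intro x
    have := hcon _ (x - q') rfl
    rw [sub_add_cancel] at this
    rw [← this]
    congr 1
    abel
  obtain ⟨z, hz1, hz2⟩ := Nat.find_spec hex
  refine ⟨q, q', z, hz2, ?_, ?_⟩
  · by_contra hcon
    push Not at hcon
    have hzQ : z ∈ Q := by
      simp only [Q, Finset.mem_product, Finset.mem_Icc]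
      exact ⟨abs_le.mp hcon.1, abs_le.mp hcon.2⟩
    exact hz2 (congrFun he ⟨z, hzQ⟩)
  · intro x hx
    by_contra hcon
    rw [hz1] at hx
    exact Nat.find_min hex hx ⟨x, rfl, hcon⟩

lemma exists_ulim {F : Type} [Finite F] (U : Ultrafilter ℕ) (s : ℕ → F) :
    ∃ a, ∀ᶠ n in (U : Filter ℕ), s n = a := by
  obtain ⟨a, ha⟩ := Ultrafilter.eq_pure_of_finite (U.map s)
  refine ⟨a, ?_⟩
  have : {a} ∈ U.map s := by rw [ha]; exact Ultrafilter.mem_pure.mpr rfl
  exact this

theorem exists_pair {F : Type} [Finite F] (c : ℤ × ℤ → F) (hc : ∀ w, w ≠ 0 → ¬ Per w c) :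
    ∃ d e : ℤ × ℤ → F, Loc c d ∧ Loc c e ∧ d 0 ≠ e 0 ∧
      ∃ ν : ℝ × ℝ, ν ≠ 0 ∧ ∀ x, ip x ν < 0 → d x = e x := by
  classical
  choose q q' z h1 h2 h3 using exists_far c hc
  let U : Ultrafilter ℕ := hyperfilter ℕ
  have hU : (U : Filter ℕ) ≤ atTop := by
    rw [← Nat.cofinite_eq_atTop]; exact hyperfilter_le_cofinite
  choose d hd using fun x : ℤ × ℤ => exists_ulim U (fun n => c (x + (z n + q n)))
  choose e he using fun x : ℤ × ℤ => exists_ulim U (fun n => c (x + (z n + q' n)))
  have hloc : ∀ (d : ℤ × ℤ → F) (q : ℕ → ℤ × ℤ),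
      (∀ x, ∀ᶠ n in (U : Filter ℕ), c (x + q n) = d x) → Loc c d := by
    intro d q hd S
    have : ∀ᶠ n in (U : Filter ℕ), ∀ x ∈ S, c (x + q n) = d x :=
      (Filter.eventually_all_finset S).mpr (fun x _ => hd x)
    obtain ⟨n, hn⟩ := this.exists
    exact ⟨q n, fun s hs => (hn s hs).symm⟩
  let y : ℕ → ℝ × ℝ := fun n => (((z n).1 : ℝ), ((z n).2 : ℝ))
  have hy : ∀ n : ℕ, (n : ℝ) < ‖y n‖ := by
    intro n
    rw [Prod.norm_def, lt_max_iff]
    simp only [y, Real.norm_eq_abs]
    rcases h2 n with h | h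
    · left; exact_mod_cast h
    · right; exact_mod_cast h
  have hypos : ∀ n, 0 < ‖y n‖ := fun n => lt_of_le_of_lt (Nat.cast_nonneg n) (hy n)
  let u : ℕ → ℝ × ℝ := fun n => ‖y n‖⁻¹ • y n
  have hu : ∀ n, u n ∈ Metric.sphere (0 : ℝ × ℝ) 1 := by
    intro n
    rw [mem_sphere_zero_iff_norm, norm_smul, norm_inv, norm_norm, inv_mul_cancel₀ (hypos n).ne']
  obtain ⟨ν, hν, hlim⟩ := (isCompact_sphere (0 : ℝ × ℝ) 1).ultrafilter_le_nhds (U.map u) (by
    rw [Filter.le_principal_iff]
    exact Filter.mem_map.mpr (Filter.Eventually.of_forall hu))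
  have hlim' : Tendsto u (U : Filter ℕ) (𝓝 ν) := hlim
  refine ⟨d, e, hloc d _ hd, hloc e _ he, ?_, ν, ?_, ?_⟩
  · obtain ⟨n, hn1, hn2⟩ := ((hd 0).and (he 0)).exists
    rw [← hn1, ← hn2, zero_add, zero_add]
    exact h1 n
  · rintro rfl
    simp at hν
  · intro x hx
    have hc1 : Continuous (fun μ : ℝ × ℝ => ip x μ) := by
      unfold ip; fun_prop
    have ht : Tendsto (fun n => ip x (u n)) (U : Filter ℕ) (𝓝 (ip x ν)) :=
      (hc1.tendsto ν).comp hlim'
    have hev : ∀ᶠ n in (U : Filter ℕ), ip x (u n) < ip x ν / 2 :=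
      ht.eventually (gt_mem_nhds (by linarith))
    obtain ⟨M, hM⟩ := exists_nat_gt (((x.1 : ℝ) ^ 2 + (x.2 : ℝ) ^ 2) / (-ip x ν))
    have hev2 : ∀ᶠ n in (U : Filter ℕ), M ≤ n := hU (Filter.eventually_ge_atTop M)
    obtain ⟨n, ⟨hn1, hn2⟩, hn3, hn4⟩ := (((hd x).and (he x)).and (hev.and hev2)).exists
    rw [← hn1, ← hn2, ← add_assoc, ← add_assoc]
    apply h3
    have e1 : ip x (u n) * ‖y n‖ = (x.1 : ℝ) * (z n).1 + (x.2 : ℝ) * (z n).2 := by
      simp only [ip, u, y, Prod.smul_fst, Prod.smul_snd, smul_eq_mul]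
      have := (hypos n).ne'
      simp only [y] at this
      field_simp
    have e2 : (x.1 : ℝ) ^ 2 + (x.2 : ℝ) ^ 2 < (-ip x ν) * ‖y n‖ := by
      rw [div_lt_iff₀ (by linarith)] at hM
      have h5 : (M : ℝ) ≤ n := by exact_mod_cast hn4
      have h6 := hy n
      nlinarith
    have e3 : ip x (u n) * ‖y n‖ < ip x ν / 2 * ‖y n‖ := mul_lt_mul_of_pos_right hn3 (hypos n)
    have e4 : ((x.1 : ℝ) + (z n).1) ^ 2 + ((x.2 : ℝ) + (z n).2) ^ 2
        < ((z n).1 : ℝ) ^ 2 + ((z n).2 : ℝ) ^ 2 := by nlinarith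
    have e5 : (nsq (x + z n) : ℤ) < nsq (z n) := by
      rw [nsq_cast, nsq_cast]
      simp only [Prod.fst_add, Prod.snd_add]
      exact_mod_cast e4
    exact_mod_cast e5

lemma parallel {u v : ℤ × ℤ} (hu : u ≠ 0) (hv : v ≠ 0) (h : u.1 * v.2 = u.2 * v.1) :
    ∃ a b : ℤ, a ≠ 0 ∧ a • u = b • v := by
  by_cases h1 : u.1 = 0
  · have h2 : u.2 ≠ 0 := fun h2 => hu (Prod.ext h1 h2)
    have h3 : v.1 = 0 := by
      rw [h1, zero_mul] at h
      exact (mul_eq_zero.mp h.symm).resolve_left h2
    have h4 : v.2 ≠ 0 := fun h4 => hv (Prod.ext h3 h4)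
    refine ⟨v.2, u.2, h4, Prod.ext ?_ ?_⟩
    · simp [h1, h3]
    · simp [mul_comm]
  · have h3 : v.1 ≠ 0 := by
      intro h3
      rw [h3, mul_zero] at h
      exact hv (Prod.ext h3 ((mul_eq_zero.mp h).resolve_left h1))
    refine ⟨v.1, u.1, h3, Prod.ext ?_ ?_⟩
    · simp [mul_comm]
    · simp only [Prod.smul_snd, smul_eq_mul]; linarith

lemma zero_of_per {A : Type} [Zero A] {ν : ℝ × ℝ} {v : ℤ × ℤ} {δ : ℤ × ℤ → A} {t : ℝ}
    (hv : ip v ν ≠ 0) (hp : Per v δ) (h0 : ∀ x, ip x ν < t → δ x = 0) : ∀ x, δ x = 0 := by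
  intro x
  obtain ⟨k, hk⟩ : ∃ k : ℤ, ip x ν + k * ip v ν < t := by
    rcases lt_or_gt_of_ne hv with h | h
    · obtain ⟨k, hk⟩ := exists_int_gt ((ip x ν - t) / (-ip v ν))
      rw [div_lt_iff₀ (by linarith)] at hk
      exact ⟨k, by linarith⟩
    · obtain ⟨k, hk⟩ := exists_int_lt ((t - ip x ν) / (ip v ν))
      rw [lt_div_iff₀ h] at hk
      exact ⟨k, by linarith⟩
  rw [← hp.zsmul k x]
  apply h0
  rw [ip_add, ip_zsmul]; exact hk

lemma D_half {A : Type} [AddCommGroup A] {ν : ℝ × ℝ} (v : ℤ × ℤ) {δ : ℤ × ℤ → A} {t : ℝ}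
    (h0 : ∀ x, ip x ν < t → δ x = 0) :
    ∀ x, ip x ν < min t (t - ip v ν) → D v δ x = 0 := by
  intro x hx
  rw [lt_min_iff] at hx
  simp only [D]
  rw [h0 x hx.1, h0 (x + v) (by rw [ip_add]; linarith [hx.2]), sub_zero]

lemma peel {A : Type} [AddCommGroup A] (p : ℕ) (hp0 : p ≠ 0) (hp : ∀ a : A, p • a = 0)
    (ν : ℝ × ℝ) (hν : ν ≠ 0) : ∀ (L : List (ℤ × ℤ)), (∀ v ∈ L, v ≠ 0) →
      ∀ (δ : ℤ × ℤ → A) (t : ℝ), (∀ x, ip x ν < t → δ x = 0) → Kill L δ →
        (∀ x, δ x = 0) ∨ ∃ w, w ≠ 0 ∧ ip w ν = 0 ∧ Per w δ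
  | [], _, δ, _, _, hK => Or.inl hK
  | v :: L, hL, δ, t, h0, hK => by
    have hv : v ≠ 0 := hL v (List.mem_cons_self ..)
    rcases peel p hp0 hp ν hν L (fun u hu => hL u (List.mem_cons_of_mem _ hu)) (D v δ) _
      (D_half v h0) hK with h | ⟨w, hw, hwν, hper⟩
    · have hper : Per v δ := (per_iff_D v δ).mpr h
      by_cases hvν : ip v ν = 0
      · exact Or.inr ⟨v, hv, hvν, hper⟩
      · exact Or.inl (zero_of_per hvν hper h0)
    · by_cases hvν : ip v ν = 0
      · have hdet : w.1 * v.2 = w.2 * v.1 := by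
          have e1 : ((w.1 : ℝ) * v.2 - w.2 * v.1) * ν.1 = 0 := by
            simp only [ip] at hwν hvν
            linear_combination (v.2 : ℝ) * hwν - (w.2 : ℝ) * hvν
          have e2 : ((w.1 : ℝ) * v.2 - w.2 * v.1) * ν.2 = 0 := by
            simp only [ip] at hwν hvν
            linear_combination (w.1 : ℝ) * hvν - (v.1 : ℝ) * hwν
          have e3 : (w.1 : ℝ) * v.2 - w.2 * v.1 = 0 := by
            by_contra hne
            exact hν (Prod.ext ((mul_eq_zero.mp e1).resolve_left hne)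
              ((mul_eq_zero.mp e2).resolve_left hne))
          have e4 : (w.1 : ℝ) * v.2 = w.2 * v.1 := by linarith
          exact_mod_cast e4
        obtain ⟨a, b, ha, hab⟩ := parallel hw hv hdet
        refine Or.inr ⟨(p : ℤ) • (a • w), ?_, ?_, merge_per p hp a b hab hper⟩
        · exact smul_ne_zero (by exact_mod_cast hp0) (smul_ne_zero ha hw)
        · rw [ip_zsmul, ip_zsmul, hwν]; simp
      · refine Or.inr ⟨w, hw, hwν, (per_iff_D w δ).mpr ?_⟩
        exact zero_of_per hvν (per_D_comm hper) (D_half w h0)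

end Nivat28

end MrgPart2

-- ======== part 3: formerly Pool.Agent.MP_4dad27_co.Conv
section MrgPart3

set_option autoImplicit false

/-! Lattice convex sets and changes of coordinates. -/

namespace Nivat28

open Finset

lemma LC.filter {S : Finset (ℤ × ℤ)} (hS : LC S) (C' : Set (ℝ × ℝ)) (hC' : Convex ℝ C')
    (p : ℤ × ℤ → Prop) [DecidablePred p] (hp : ∀ x, p x ↔ ((x.1 : ℝ), (x.2 : ℝ)) ∈ C') :
    LC (S.filter p) := by
  obtain ⟨C, hC, h⟩ := hS
  refine ⟨C ∩ C', hC.inter hC', fun x => ?_⟩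
  rw [Finset.mem_filter, h, hp, Set.mem_inter_iff]

lemma LC.shift {S : Finset (ℤ × ℤ)} (hS : LC S) (t : ℤ × ℤ) :
    LC (S.filter (fun s => s + t ∈ S)) := by
  obtain ⟨C, hC, h⟩ := id hS
  refine hS.filter ((fun y => y + ((t.1 : ℝ), (t.2 : ℝ))) ⁻¹' C) ?_ _ ?_
  · exact hC.translate_preimage_left _
  · intro x
    rw [h, Set.mem_preimage]
    simp

lemma LC.above {S : Finset (ℤ × ℤ)} (hS : LC S) (y0 : ℤ) :
    LC (S.filter (fun s => y0 < s.2)) := by
  refine hS.filter {y | (y0 : ℝ) < y.2} ?_ _ ?_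
  · intro a ha b hb s t hs ht hst
    simp only [Set.mem_ofPred_eq, Prod.snd_add, Prod.smul_snd, smul_eq_mul] at ha hb ⊢
    exact (convex_Ioi (y0 : ℝ)) ha hb hs ht hst
  · intro x; simp

/-- lexicographic half-planes are convex -/
lemma convex_lex (σ τ x0 y0 : ℝ) :
    Convex ℝ {y : ℝ × ℝ | σ * y0 < σ * y.2 ∨ (σ * y0 = σ * y.2 ∧ τ * x0 < τ * y.1)} := by
  intro a ha b hb s t hs ht hst
  simp only [Set.mem_ofPred_eq, Prod.snd_add, Prod.fst_add, Prod.smul_snd, Prod.smul_fst,
    smul_eq_mul] at ha hb ⊢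
  have hs' : s = 1 - t := by linarith
  subst hs'
  rcases eq_or_lt_of_le hs with h0 | h0
  · have : t = 1 := by linarith
    subst this
    simpa using hb
  rcases eq_or_lt_of_le ht with h1 | h1
  · subst h1
    simpa using ha
  rcases ha with ha | ⟨ha, ha'⟩ <;> rcases hb with hb | ⟨hb, hb'⟩
  · left; nlinarith
  · left; nlinarith
  · left; nlinarith
  · right; constructor
    · linear_combination (1 - t) * ha + t * hb
    · nlinarith

lemma LC.lex {S : Finset (ℤ × ℤ)} (hS : LC S) (σ τ : ℤ) (v : ℤ × ℤ) :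
    LC (S.filter (fun s => σ * v.2 < σ * s.2 ∨ (σ * v.2 = σ * s.2 ∧ τ * v.1 < τ * s.1))) := by
  refine hS.filter _ (convex_lex σ τ v.1 v.2) _ ?_
  intro x
  simp only [Set.mem_ofPred_eq]
  norm_cast

lemma LC.row {S : Finset (ℤ × ℤ)} (hS : LC S) {a b x y : ℤ} (ha : (a, y) ∈ S) (hb : (b, y) ∈ S)
    (h1 : a ≤ x) (h2 : x ≤ b) : (x, y) ∈ S := by
  obtain ⟨C, hC, h⟩ := hS
  rw [h] at ha hb ⊢
  have hx : (x : ℝ) ∈ segment ℝ (a : ℝ) (b : ℝ) := by
    rw [segment_eq_Icc (by exact_mod_cast h1.trans h2)]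
    exact ⟨by exact_mod_cast h1, by exact_mod_cast h2⟩
  obtain ⟨s, t, hs, ht, hst, hx⟩ := hx
  have := hC ha hb hs ht hst
  convert this using 1
  simp only [smul_eq_mul] at hx
  ext
  · simp [hx]
  · simp [← add_mul, hst]

lemma LC.mid {S : Finset (ℤ × ℤ)} (hS : LC S) {xb yb xt yt j : ℤ} {a : ℕ}
    (h1 : (xb, yb) ∈ S) (h2 : (xb + a, yb) ∈ S) (h3 : (xt, yt) ∈ S) (h4 : (xt + a, yt) ∈ S)
    (hj1 : yb ≤ j) (hj2 : j ≤ yt) : ∃ ξ : ℤ, ∀ i : ℕ, i < a → (ξ + i, j) ∈ S := by
  obtain ⟨C, hC, h⟩ := hS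
  rw [h] at h1 h2 h3 h4
  have hx : (j : ℝ) ∈ segment ℝ (yb : ℝ) (yt : ℝ) := by
    rw [segment_eq_Icc (by exact_mod_cast hj1.trans hj2)]
    exact ⟨by exact_mod_cast hj1, by exact_mod_cast hj2⟩
  obtain ⟨s, t, hs, ht, hst, hx⟩ := hx
  simp only [smul_eq_mul] at hx
  set ξ : ℝ := s * xb + t * xt with hξ
  have e1 : (ξ, (j : ℝ)) ∈ C := by
    have := hC h1 h3 hs ht hst
    convert this using 1
    ext <;> simp [hξ, hx]
  have e2 : (ξ + a, (j : ℝ)) ∈ C := by
    have := hC h2 h4 hs ht hst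
    convert this using 1
    ext
    · simp only [hξ, Prod.fst_add, Prod.smul_fst, smul_eq_mul]
      push_cast
      linear_combination (-(a : ℝ)) * hst
    · simp [hx]
  refine ⟨⌈ξ⌉, fun i hi => ?_⟩
  rw [h]
  have hy : ((⌈ξ⌉ + i : ℤ) : ℝ) ∈ segment ℝ ξ (ξ + a) := by
    rw [segment_eq_Icc (by linarith [(Nat.cast_nonneg a : (0 : ℝ) ≤ a)])]
    have h5 := Int.le_ceil ξ
    have h6 := Int.ceil_lt_add_one ξ
    have h7 : (i : ℝ) + 1 ≤ a := by exact_mod_cast hi
    have h8 : (0 : ℝ) ≤ i := Nat.cast_nonneg i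
    push_cast
    constructor <;> linarith
  obtain ⟨s', t', hs', ht', hst', hy⟩ := hy
  have := hC e1 e2 hs' ht' hst'
  convert this using 1
  simp only [smul_eq_mul] at hy
  ext
  · simp [hy]
  · simp [← add_mul, hst']

/-- transport of a finite set along a change of coordinates -/
def tr (e : ℤ × ℤ ≃+ ℤ × ℤ) (S : Finset (ℤ × ℤ)) : Finset (ℤ × ℤ) :=
  S.map e.symm.toEquiv.toEmbedding

lemma mem_tr (e : ℤ × ℤ ≃+ ℤ × ℤ) (S : Finset (ℤ × ℤ)) (s : ℤ × ℤ) : s ∈ tr e S ↔ e s ∈ S := by
  simp [tr, Finset.mem_map_equiv]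

lemma card_tr (e : ℤ × ℤ ≃+ ℤ × ℤ) (S : Finset (ℤ × ℤ)) : (tr e S).card = S.card := by
  simp [tr]

lemma equiv_apply (e : ℤ × ℤ ≃+ ℤ × ℤ) (x : ℤ × ℤ) :
    e x = x.1 • e (1, 0) + x.2 • e (0, 1) := by
  rw [← map_zsmul, ← map_zsmul, ← map_add]
  congr 1
  ext <;> simp

lemma LC.tr {S : Finset (ℤ × ℤ)} (hS : LC S) (e : ℤ × ℤ ≃+ ℤ × ℤ) : LC (tr e S) := by
  obtain ⟨C, hC, h⟩ := hS
  let E : ℝ × ℝ →ₗ[ℝ] ℝ × ℝ :=
    (LinearMap.fst ℝ ℝ ℝ).smulRight (((e (1, 0)).1 : ℝ), ((e (1, 0)).2 : ℝ)) +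
    (LinearMap.snd ℝ ℝ ℝ).smulRight (((e (0, 1)).1 : ℝ), ((e (0, 1)).2 : ℝ))
  refine ⟨E ⁻¹' C, hC.linear_preimage E, fun x => ?_⟩
  rw [mem_tr, h, Set.mem_preimage, equiv_apply e x]
  simp [E]

lemma P_tr {A : Type} [Zero A] [Finite A] (c : ℤ × ℤ → A) (S : Finset (ℤ × ℤ))
    (e : ℤ × ℤ ≃+ ℤ × ℤ) : P (fun x => c (e x)) (tr e S) = P c S := by
  have h1 : Set.range (fun q => pat c S (e q)) = Set.range (pat c S) :=
    e.surjective.range_comp (pat c S)
  have hiff : ∀ q q', pat c S (e q) = pat c S (e q') ↔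
      pat (fun x => c (e x)) (tr e S) q = pat (fun x => c (e x)) (tr e S) q' := by
    intro q q'
    rw [pat_eq_iff, pat_eq_iff]
    constructor
    · intro h s hs
      rw [mem_tr] at hs
      simp only [map_add]
      exact h _ hs
    · intro h s hs
      have := h (e.symm s) (by rw [mem_tr]; simpa using hs)
      simpa [map_add] using this
  unfold P
  rw [← h1]
  apply le_antisymm
  · exact ncard_range_le _ _ (by rw [h1]; exact finite_range_pat c S)
      (fun q q' h => (hiff q q').mp h)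
  · exact ncard_range_le _ _ (finite_range_pat _ _) (fun q q' h => (hiff q q').mpr h)

lemma Kill.tr {A : Type} [AddCommGroup A] (e : ℤ × ℤ ≃+ ℤ × ℤ) :
    ∀ (L : List (ℤ × ℤ)) (c : ℤ × ℤ → A), Kill L c → Kill (L.map e.symm) (fun x => c (e x))
  | [], _, h => fun x => h (e x)
  | v :: L, c, h => by
    have := Kill.tr e L (D v c) h
    have e1 : (fun x => D v c (e x)) = D (e.symm v) (fun x => c (e x)) := by
      funext x; simp [D, map_add]
    rw [e1] at this
    exact this

lemma per_tr {A : Type} (e : ℤ × ℤ ≃+ ℤ × ℤ) (c : ℤ × ℤ → A) (w : ℤ × ℤ) :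
    Per w (fun x => c (e x)) ↔ Per (e w) c := by
  constructor
  · intro h x
    have := h (e.symm x)
    simpa [map_add] using this
  · intro h x
    simp only [map_add]
    exact h _

lemma Loc.tr {A : Type} {c d : ℤ × ℤ → A} (h : Loc c d) (e : ℤ × ℤ ≃+ ℤ × ℤ) :
    Loc (fun x => c (e x)) (fun x => d (e x)) := by
  intro S
  obtain ⟨q, hq⟩ := h (Nivat28.tr e.symm S)
  refine ⟨e.symm q, fun s hs => ?_⟩
  have := hq (e s) (by rw [mem_tr]; simpa using hs)
  simpa [map_add] using this

lemma exists_basis (w : ℤ × ℤ) (hw : w ≠ 0) :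
    ∃ (e : ℤ × ℤ ≃+ ℤ × ℤ) (k : ℕ), 0 < k ∧ e (k, 0) = w := by
  have hg : 0 < Int.gcd w.1 w.2 := by
    rw [Int.gcd_pos_iff]
    by_contra hcon
    push Not at hcon
    exact hw (Prod.ext hcon.1 hcon.2)
  obtain ⟨a, b, hab, ha, hb⟩ := Int.exists_gcd_one hg
  obtain ⟨s, t, hst⟩ : IsCoprime a b := Int.isCoprime_iff_gcd_eq_one.mpr hab
  let e : ℤ × ℤ ≃+ ℤ × ℤ :=
    { toFun := fun x => (x.1 * a - x.2 * t, x.1 * b + x.2 * s)
      invFun := fun y => (s * y.1 + t * y.2, -b * y.1 + a * y.2)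
      left_inv := by
        intro x
        ext
        · simp only; linear_combination x.1 * hst
        · simp only; linear_combination x.2 * hst
      right_inv := by
        intro y
        ext
        · simp only; linear_combination y.1 * hst
        · simp only; linear_combination y.2 * hst
      map_add' := by
        intro x y
        ext
        · simp only [Prod.fst_add, Prod.snd_add]; ring
        · simp only [Prod.fst_add, Prod.snd_add]; ring }
  refine ⟨e, Int.gcd w.1 w.2, hg, ?_⟩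
  ext
  · show (Int.gcd w.1 w.2 : ℤ) * a - 0 * t = w.1
    linarith
  · show (Int.gcd w.1 w.2 : ℤ) * b + 0 * s = w.2
    linarith

/-- reflection in the first axis -/
def flip : ℤ × ℤ ≃+ ℤ × ℤ := (AddEquiv.refl ℤ).prodCongr (AddEquiv.neg ℤ)

lemma flip_apply (x : ℤ × ℤ) : flip x = (x.1, -x.2) := rfl

end Nivat28

end MrgPart3

-- ======== part 4: formerly Pool.Agent.MP_4dad27_co.Two
section MrgPart4

set_option autoImplicit false

/-! The case of two directions (Szabados), for lattice convex shapes. -/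

namespace Nivat28

open Finset

lemma finite_range_word {α : Type} [Zero α] [Finite α] (Γ : ℤ → α) (i : ℕ) :
    (Set.range (word Γ i)).Finite := by
  let Ψ : (Fin i → α) → (ℕ → α) := fun g j => if h : j < i then g ⟨j, h⟩ else 0
  refine (Set.finite_range Ψ).subset ?_
  rintro _ ⟨x, rfl⟩
  refine ⟨fun j => Γ (x + (j : ℕ)), ?_⟩
  funext j
  by_cases hj : j < i
  · simp [Ψ, word, hj]
  · simp [Ψ, word, hj]

lemma P_pos {A : Type} [Zero A] [Finite A] (c : ℤ × ℤ → A) (S : Finset (ℤ × ℤ)) : 0 < P c S :=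
  (Set.ncard_pos (finite_range_pat c S)).mpr ⟨_, 0, rfl⟩

lemma cover (v : ℤ × ℤ) (hv : v.2 < 0) (y t : ℤ × ℤ) :
    ∃ (n : ℤ) (x : ℤ × ℤ), 1 ≤ x.2 ∧ x.2 ≤ -v.2 ∧ y = x + t + n • v := by
  have h1 := Int.emod_nonneg (y.2 - t.2 - 1) (show -v.2 ≠ 0 by omega)
  have h2 := Int.emod_lt_of_pos (y.2 - t.2 - 1) (show 0 < -v.2 by omega)
  have h3 := Int.emod_add_mul_ediv (y.2 - t.2 - 1) (-v.2)
  refine ⟨-((y.2 - t.2 - 1) / (-v.2)), y - t + ((y.2 - t.2 - 1) / (-v.2)) • v, ?_, ?_, ?_⟩
  · simp only [Prod.snd_add, Prod.snd_sub, Prod.smul_snd, smul_eq_mul]; nlinarith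
  · simp only [Prod.snd_add, Prod.snd_sub, Prod.smul_snd, smul_eq_mul]; nlinarith
  · rw [neg_smul]; abel

lemma per1_mul {α : Type} (r : ℤ → α) (K : ℤ) (h : ∀ x, r (x + K) = r x) (m : ℤ) (x : ℤ) :
    r (x + m * K) = r x := by
  have : Function.Periodic r K := h
  exact this.int_mul m x

section

variable {A : Type} [AddCommGroup A] [Finite A]

omit [Finite A] in
lemma rowper (c : ℤ × ℤ → A) (k : ℕ) (hk : 0 < k) (v : ℤ × ℤ) (h : Per ((k : ℤ), 0) (D v c))
    (m n y : ℤ) (h0 : ∀ i : ℤ, 0 ≤ i → i < k → c ((i, y) + m • v) = c ((i, y) + n • v)) (i : ℤ) :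
    c ((i, y) + m • v) = c ((i, y) + n • v) := by
  have h1 : Per ((k : ℤ), 0) (D ((m - n) • v) c) := per_D_comm ((per_D_comm h).zsmul (m - n))
  have h2 : ∀ x : ℤ × ℤ, c (x + m • v) - c (x + n • v) = D ((m - n) • v) c (x + n • v) := by
    intro x
    simp only [D]
    congr 2
    rw [sub_smul]; abel
  have hk' : (k : ℤ) ≠ 0 := by omega
  have h3 := h1.zsmul (i / k) ((i % k, y) + n • v)
  have e : (i % k, y) + n • v + (i / k) • ((k : ℤ), (0 : ℤ)) = (i, y) + n • v := by
    have := Int.emod_add_mul_ediv i k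
    ext
    · simp only [Prod.fst_add, Prod.smul_fst, smul_eq_mul]; linarith
    · simp
  rw [e, ← h2, ← h2, h0 _ (Int.emod_nonneg _ hk') (Int.emod_lt_of_pos _ (by omega)),
    sub_self] at h3
  exact sub_eq_zero.mp h3

lemma stripe_pair (c : ℤ × ℤ → A) (k : ℕ) (hk : 0 < k) (v : ℤ × ℤ) (hv : v.2 < 0)
    (h : Per ((k : ℤ), 0) (D v c)) (hc : ∀ w, w ≠ 0 → ¬ Per w c) (g : ℤ) :
    ∃ t t' : ℤ × ℤ, (∀ x : ℤ × ℤ, 1 ≤ x.2 → x.2 ≤ g → c (x + t) = c (x + t')) ∧
      ∃ x0 : ℤ, c ((x0, 0) + t) ≠ c ((x0, 0) + t') := by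
  classical
  set H : ℤ := max g (-v.2) with hH
  let B : Finset (ℤ × ℤ) := Finset.Ico (0 : ℤ) k ×ˢ Finset.Icc 1 H
  let s : ℤ → (ℤ × ℤ → A) := fun n => pat c B (n • v)
  have hs : ∀ m n, s m = s n → ∀ x : ℤ × ℤ, 1 ≤ x.2 → x.2 ≤ H →
      c (x + m • v) = c (x + n • v) := by
    intro m n hmn x h1 h2
    simp only [s] at hmn
    rw [pat_eq_iff] at hmn
    apply rowper c k hk v h m n x.2 _ x.1
    intro i hi1 hi2
    apply hmn
    simp only [B, Finset.mem_product, Finset.mem_Ico, Finset.mem_Icc]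
    exact ⟨⟨hi1, hi2⟩, h1, h2⟩
  by_cases hdet : ∀ m n, s m = s n → s (m + 1) = s (n + 1)
  · exfalso
    obtain ⟨K, hK, hper⟩ := det_periodic s ((finite_range_pat c B).subset (by
      rintro _ ⟨n, rfl⟩; exact ⟨_, rfl⟩)) hdet
    apply hc ((K : ℤ) • v) (smul_ne_zero (by omega) (by rintro rfl; simp at hv))
    intro y
    obtain ⟨n, x, h1, h2, rfl⟩ := cover v hv y 0
    have := hs _ _ (hper n) x h1 (h2.trans (le_max_right _ _))
    rw [add_zero, ← this, add_smul, add_assoc]
  · push Not at hdet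
    obtain ⟨m, n, hmn, hne⟩ := hdet
    have hex : ∃ y : ℤ, y ≤ H ∧ ∃ i : ℤ, c ((i, y) + m • v) ≠ c ((i, y) + n • v) := by
      by_contra hcon
      push Not at hcon
      apply hne
      simp only [s]
      rw [pat_eq_iff]
      intro x hx
      simp only [B, Finset.mem_product, Finset.mem_Ico, Finset.mem_Icc] at hx
      have := hcon (x + v).2 (by simp only [Prod.snd_add]; omega) (x + v).1
      rw [add_smul, add_smul, one_smul, add_comm (m • v), add_comm (n • v), ← add_assoc,
        ← add_assoc]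
      exact this
    obtain ⟨y0, ⟨hy0, i0, hi0⟩, hmax⟩ := Int.exists_greatest_of_bdd
      (P := fun y => y ≤ H ∧ ∃ i : ℤ, c ((i, y) + m • v) ≠ c ((i, y) + n • v))
      ⟨H, fun z hz => hz.1⟩ hex
    have hy1 : y0 ≤ 0 := by
      by_contra hcon
      exact hi0 (hs m n hmn (i0, y0) (by simp only; omega) hy0)
    refine ⟨(0, y0) + m • v, (0, y0) + n • v, ?_, i0, ?_⟩
    · intro x h1 h2
      by_contra hcon
      have hg : g ≤ H := le_max_left _ _
      have := hmax (x.2 + y0) ⟨by omega, x.1, by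
        have e : ((x.1, x.2 + y0) : ℤ × ℤ) = x + (0, y0) := by ext <;> simp
        rw [e, add_assoc, add_assoc]; exact hcon⟩
      omega
    · have e : ((i0, y0) : ℤ × ℤ) = (i0, 0) + (0, y0) := by ext <;> simp
      rw [← add_assoc, ← add_assoc, ← e]; exact hi0

lemma gen (c : ℤ × ℤ → A) (S : Finset (ℤ × ℤ)) (hS : LC S) (hP : P c S ≤ S.card)
    (hmin : ∀ T, T ⊂ S → LC T → T.card < P c T) (z : ℤ × ℤ) (hz : z ∈ S) (σ τ : ℤ)
    (hl : ∀ s ∈ S, s ≠ z → σ * z.2 < σ * s.2 ∨ (σ * z.2 = σ * s.2 ∧ τ * z.1 < τ * s.1))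
    (q q' : ℤ × ℤ) (hq : ∀ s ∈ S, s ≠ z → c (s + q) = c (s + q')) : c (z + q) = c (z + q') := by
  classical
  have hT := hS.lex σ τ z
  have e : S.filter (fun s => σ * z.2 < σ * s.2 ∨ (σ * z.2 = σ * s.2 ∧ τ * z.1 < τ * s.1))
      = S.erase z := by
    ext s
    rw [Finset.mem_filter, Finset.mem_erase]
    constructor
    · rintro ⟨h1, h2⟩
      refine ⟨?_, h1⟩
      rintro rfl
      simp at h2
    · rintro ⟨h1, h2⟩
      exact ⟨h2, hl s h2 h1⟩
  rw [e] at hT
  have h1 := hmin _ (Finset.erase_ssubset hz) hT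
  rw [Finset.card_erase_of_mem hz] at h1
  have h2 := inj_of_ncard_range_le (pat c S) (pat c (S.erase z)) (finite_range_pat c S) (by
    intro q q' h
    rw [pat_eq_iff] at h ⊢
    intro s hs
    exact h s (Finset.mem_of_mem_erase hs)) (by
    have := Finset.card_pos.mpr ⟨z, hz⟩
    unfold P at hP h1
    omega) q q' (by
    rw [pat_eq_iff]
    intro s hs
    rw [Finset.mem_erase] at hs
    exact hq s hs.2 hs.1)
  rw [pat_eq_iff] at h2
  exact h2 z hz

omit [AddCommGroup A] [Finite A] in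
lemma common_period (d : ℤ × ℤ → A) (lo : ℤ) (n : ℕ)
    (h : ∀ j, lo ≤ j → j < lo + n → ∃ K : ℕ, 0 < K ∧ ∀ x, d (x + K, j) = d (x, j)) :
    ∃ K : ℕ, 0 < K ∧ ∀ j, lo ≤ j → j < lo + n → ∀ x, d (x + K, j) = d (x, j) := by
  induction n with
  | zero => exact ⟨1, one_pos, fun j h1 h2 => by simp at h2; omega⟩
  | succ n ih =>
    obtain ⟨K, hK, h1⟩ := ih (fun j a b => h j a (by push_cast; omega))
    obtain ⟨K', hK', h2⟩ := h (lo + n) (by omega) (by push_cast; omega)
    refine ⟨K * K', Nat.mul_pos hK hK', fun j a b x => ?_⟩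
    push_cast at b ⊢
    by_cases hj : j = lo + n
    · rw [hj]
      exact per1_mul (fun x => d (x, lo + n)) K' h2 K x
    · rw [mul_comm]
      exact per1_mul (fun x => d (x, j)) K (h1 j a (by omega)) K' x

lemma core (c : ℤ × ℤ → A) (k : ℕ) (hk : 0 < k) (v : ℤ × ℤ) (hv : v.2 < 0)
    (h : Per ((k : ℤ), 0) (D v c)) (S : Finset (ℤ × ℤ)) (hS : LC S) (hP : P c S ≤ S.card)
    (hmin : ∀ T, T ⊂ S → LC T → T.card < P c T) (xb yb xt yt : ℤ) (a a' : ℕ) (haa : a ≤ a')
    (hb : ∀ s ∈ S, yb ≤ s.2 ∧ s.2 ≤ yt) (hb1 : (xb, yb) ∈ S) (hb2 : (xb + a, yb) ∈ S)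
    (hb3 : ∀ s ∈ S, s.2 = yb → xb ≤ s.1 ∧ s.1 ≤ xb + a) (ht1 : (xt, yt) ∈ S)
    (ht2 : (xt + a', yt) ∈ S) (ht3 : ∀ s ∈ S, s.2 = yt → xt ≤ s.1 ∧ s.1 ≤ xt + a') :
    ∃ w, w ≠ 0 ∧ Per w c := by
  classical
  by_contra hcon
  have hc : ∀ w, w ≠ 0 → ¬ Per w c := fun w h1 h2 => hcon ⟨w, h1, h2⟩
  obtain ⟨g, hg⟩ : ∃ g : ℕ, yt = yb + g := ⟨(yt - yb).toNat, by have := (hb _ hb1).2; omega⟩
  obtain ⟨t, t', hag, x0, hx0⟩ := stripe_pair c k hk v hv h hc g
  let q : ℤ → ℤ × ℤ := fun x => (x - xb, -yb) + t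
  let q' : ℤ → ℤ × ℤ := fun x => (x - xb, -yb) + t'
  have hq : ∀ (s : ℤ × ℤ) x, s + q x = (s.1 + x - xb, s.2 - yb) + t := by
    intro s x; ext <;> simp [q] <;> ring
  have hq' : ∀ (s : ℤ × ℤ) x, s + q' x = (s.1 + x - xb, s.2 - yb) + t' := by
    intro s x; ext <;> simp [q'] <;> ring
  have hup : ∀ x, ∀ s ∈ S, s.2 ≠ yb → c (s + q x) = c (s + q' x) := by
    intro x s hs hne
    rw [hq, hq']
    have := hb s hs
    apply hag <;> simp only <;> omega
  -- every window of the boundary row sees a difference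
  let R : ℤ → Prop := fun x => ∀ i : ℤ, x ≤ i → i ≤ x + a → c ((i, 0) + t) = c ((i, 0) + t')
  have hR1 : ∀ x, R x → R (x + 1) := by
    intro x hx i h1 h2
    by_cases hi : i = x + 1 + a
    · have := gen c S hS hP hmin (xb + a, yb) hb2 1 (-1) (by
        intro s hs hne
        have h3 := hb s hs
        have h4 := hb3 s hs
        have h5 : ¬ (s.1 = xb + a ∧ s.2 = yb) := fun h => hne (Prod.ext h.1 h.2)
        simp only
        omega) (q (x + 1)) (q' (x + 1)) (by
        intro s hs hne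
        by_cases h3 : s.2 = yb
        · have h4 := hb3 s hs h3
          have h5 : s.1 ≠ xb + a := fun h => hne (Prod.ext h h3)
          rw [hq, hq', h3, sub_self]
          apply hx <;> omega
        · exact hup _ s hs h3)
      rw [hq, hq'] at this
      simp only [sub_self] at this
      have e : xb + a + (x + 1) - xb = i := by omega
      rw [e] at this
      exact this
    · apply hx <;> omega
  have hR2 : ∀ x, R x → R (x - 1) := by
    intro x hx i h1 h2
    by_cases hi : i = x - 1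
    · have := gen c S hS hP hmin (xb, yb) hb1 1 1 (by
        intro s hs hne
        have h3 := hb s hs
        have h4 := hb3 s hs
        have h5 : ¬ (s.1 = xb ∧ s.2 = yb) := fun h => hne (Prod.ext h.1 h.2)
        simp only
        omega) (q (x - 1)) (q' (x - 1)) (by
        intro s hs hne
        by_cases h3 : s.2 = yb
        · have h4 := hb3 s hs h3
          have h5 : s.1 ≠ xb := fun h => hne (Prod.ext h h3)
          rw [hq, hq', h3, sub_self]
          apply hx <;> omega
        · exact hup _ s hs h3)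
      rw [hq, hq'] at this
      simp only [sub_self] at this
      have e : xb + (x - 1) - xb = i := by omega
      rw [e] at this
      exact this
    · apply hx <;> omega
  have hR : ∀ x, ¬ R x := by
    intro x hx
    have : ∀ n : ℤ, R (x + n) := by
      intro n
      induction n using Int.induction_on with
      | zero => simpa using hx
      | succ n ih => rw [← add_assoc]; exact hR1 _ ih
      | pred n ih => rw [← add_sub_assoc]; exact hR2 _ ih
    exact hx0 (this (x0 - x) x0 (by omega) (by omega))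
  -- the number of patterns along the stripe
  let T := S.filter (fun s => yb < s.2)
  have hT : T ⊂ S := by
    refine Finset.ssubset_iff_of_subset (Finset.filter_subset _ _) |>.mpr ⟨(xb, yb), hb1, ?_⟩
    simp
  have hT1 := hmin T hT (hS.above yb)
  have hT2 : S.card ≤ T.card + (a + 1) := by
    have : S ⊆ T ∪ (Finset.range (a + 1)).image (fun i : ℕ => (xb + i, yb)) := by
      intro s hs
      rw [Finset.mem_union]
      by_cases h1 : s.2 = yb
      · right
        have h2 := hb3 s hs h1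
        rw [Finset.mem_image]
        refine ⟨(s.1 - xb).toNat, by rw [Finset.mem_range]; omega, ?_⟩
        ext
        · simp only; omega
        · simp only; omega
      · left
        have h2 := hb s hs
        exact Finset.mem_filter.mpr ⟨hs, by omega⟩
    refine (Finset.card_le_card this).trans ((Finset.card_union_le _ _).trans ?_)
    have := Finset.card_image_le (s := Finset.range (a + 1)) (f := fun i : ℕ => (xb + i, yb))
    rw [Finset.card_range] at this
    omega
  have hamb := ncard_amb (pat c S) (pat c T) (finite_range_pat c S) (by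
      intro q q' h
      rw [pat_eq_iff] at h ⊢
      intro s hs
      exact h s (Finset.mem_of_mem_filter s hs)) q q' (by
      intro x
      rw [pat_eq_iff]
      intro s hs
      rw [Finset.mem_filter] at hs
      exact hup x s hs.1 (by omega)) (by
      intro x hx
      rw [pat_eq_iff] at hx
      apply hR x
      intro i h1 h2
      have := hx (xb + (i - x), yb) (hS.row hb1 hb2 (by omega) (by omega))
      rw [hq, hq'] at this
      simp only [sub_self] at this
      have e : xb + (i - x) + x - xb = i := by omega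
      rw [e] at this
      exact this)
  have hcount : (Set.range (fun x => pat c T (q x))).ncard ≤ a := by
    unfold P at hP hT1
    omega
  have hta : (xt + a, yt) ∈ S := hS.row ht1 ht2 (by omega) (by omega)
  have hξ : ∀ j : Fin g, ∃ ξ : ℤ, ∀ i : ℕ, i < a → (ξ + i, yb + (j : ℕ) + 1) ∈ S := by
    intro j
    have := j.2
    exact hS.mid hb1 hb2 ht1 hta (by omega) (by omega)
  choose ξ hξ using hξ
  let d : ℤ × ℤ → A := fun x => c (x + t)
  let Γ : ℤ → (Fin g → A) := fun x j => d (ξ j + x - xb, (j : ℕ) + 1)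
  obtain ⟨K0, hK0, hΓ⟩ := morse_hedlund Γ a (finite_range_word Γ a) (le_trans (by
    apply ncard_range_le (fun x => pat c T (q x)) (word Γ a)
      ((finite_range_pat c T).subset (by rintro _ ⟨n, rfl⟩; exact ⟨_, rfl⟩))
    intro x x' hx
    rw [pat_eq_iff] at hx
    rw [word_eq_iff]
    intro i hi
    funext j
    have := hx (ξ j + i, yb + (j : ℕ) + 1) (Finset.mem_filter.mpr ⟨hξ j i hi, by simp only; omega⟩)
    rw [hq, hq] at this
    simp only [Γ, d]
    have e1 : ξ j + (x + i) - xb = ξ j + i + x - xb := by ring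
    have e2 : ξ j + (x' + i) - xb = ξ j + i + x' - xb := by ring
    have e3 : ((j : ℕ) : ℤ) + 1 = yb + (j : ℕ) + 1 - yb := by ring
    rw [e1, e2, e3]
    exact this) hcount)
  -- all rows above are periodic
  have hrows : ∀ n : ℕ, ∀ j : ℤ, 1 ≤ j → j < 1 + g + n →
      ∃ K : ℕ, 0 < K ∧ ∀ x, d (x + K, j) = d (x, j) := by
    intro n
    induction n with
    | zero =>
      intro j h1 h2
      refine ⟨K0, hK0, fun x => ?_⟩
      have hj : (j - 1).toNat < g := by omega
      have := congrFun (hΓ (x + xb - ξ ⟨_, hj⟩)) ⟨_, hj⟩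
      simp only [Γ] at this
      have e1 : (((j - 1).toNat : ℕ) : ℤ) + 1 = j := by omega
      have e2 : ξ ⟨_, hj⟩ + (x + xb - ξ ⟨_, hj⟩ + K0) - xb = x + K0 := by ring
      have e3 : ξ ⟨_, hj⟩ + (x + xb - ξ ⟨_, hj⟩) - xb = x := by ring
      rw [e1, e2, e3] at this
      exact this
    | succ n ih =>
      intro j h1 h2
      by_cases hj : j < 1 + g + n
      · exact ih j h1 hj
      have hj' : j = 1 + g + n := by push_cast at h2; omega
      obtain ⟨K, hK, hper⟩ := common_period d (1 + n) g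
        (fun i a b => ih i (by omega) (by omega))
      let r : ℤ → A := fun x => d (x, j)
      let s : ℤ → ℤ × (ℕ → A) := fun x => (x % K, word r (a' + 1) x)
      have hK' : (K : ℤ) ≠ 0 := by omega
      obtain ⟨K1, hK1, hs⟩ := det_periodic s (by
          refine ((Set.finite_Ico (0 : ℤ) K).prod (finite_range_word r (a' + 1))).subset ?_
          rintro _ ⟨x, rfl⟩
          exact ⟨⟨Int.emod_nonneg _ hK', Int.emod_lt_of_pos _ (by omega)⟩, x, rfl⟩) (by
          intro m m' hm
          simp only [s, Prod.mk.injEq] at hm ⊢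
          obtain ⟨hm1, hm2⟩ := hm
          refine ⟨Int.ModEq.add_right 1 hm1, ?_⟩
          rw [word_eq_iff] at hm2 ⊢
          have hw : ∀ i : ℤ, 0 ≤ i → i ≤ a' → r (m + i) = r (m' + i) := by
            intro i h3 h4
            have := hm2 i.toNat (by omega)
            rwa [Int.toNat_of_nonneg h3] at this
          intro i hi
          by_cases hia : i = a'
          · have hz : ∀ (s : ℤ × ℤ) (x : ℤ), s + ((x + 1 - xt, j - yt) + t)
                = (s.1 + x + 1 - xt, s.2 + j - yt) + t := by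
              intro s x; ext <;> simp <;> ring
            have := gen c S hS hP hmin (xt + a', yt) ht2 (-1) (-1) (by
              intro s hs hne
              have h3 := hb s hs
              have h4 := ht3 s hs
              have h5 : ¬ (s.1 = xt + a' ∧ s.2 = yt) := fun h => hne (Prod.ext h.1 h.2)
              simp only
              omega) ((m + 1 - xt, j - yt) + t) ((m' + 1 - xt, j - yt) + t) (by
              intro s hs hne
              rw [hz, hz]
              by_cases h3 : s.2 = yt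
              · have h4 := ht3 s hs h3
                have h5 : s.1 ≠ xt + a' := fun h => hne (Prod.ext h h3)
                have := hw (s.1 + 1 - xt) (by omega) (by omega)
                simp only [r, d] at this
                have e1 : s.1 + m + 1 - xt = m + (s.1 + 1 - xt) := by ring
                have e2 : s.1 + m' + 1 - xt = m' + (s.1 + 1 - xt) := by ring
                have e3 : s.2 + j - yt = j := by omega
                rw [e1, e2, e3]; exact this
              · have h4 := hb s hs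
                obtain ⟨u, hu⟩ : (K : ℤ) ∣ m' - m := Int.ModEq.dvd hm1
                have := per1_mul (fun x => d (x, s.2 + j - yt)) K
                  (hper _ (by omega) (by omega)) u (s.1 + m + 1 - xt)
                have e1 : s.1 + m' + 1 - xt = s.1 + m + 1 - xt + u * K := by linarith
                rw [e1]
                exact this.symm)
            rw [hz, hz] at this
            simp only [r, d, hia]
            have e1 : m + 1 + a' = xt + a' + m + 1 - xt := by ring
            have e2 : m' + 1 + a' = xt + a' + m' + 1 - xt := by ring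
            have e3 : yt + j - yt = j := by ring
            simp only [e3] at this
            rw [e1, e2]; exact this
          · have := hw (i + 1) (by omega) (by omega)
            have e1 : m + 1 + i = m + (i + 1) := by ring
            have e2 : m' + 1 + i = m' + (i + 1) := by ring
            rw [e1, e2]; exact this)
      refine ⟨K1, hK1, fun x => ?_⟩
      have := (word_eq_iff r (a' + 1) _ _).mp (congrArg Prod.snd (hs x)) 0 (by omega)
      simpa [r] using this
  obtain ⟨K, hK, hper⟩ := common_period d 1 (-v.2).toNat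
    (fun i a b => hrows (-v.2).toNat i a (by omega))
  have h1 : Per v (D ((K : ℤ) • ((k : ℤ), (0 : ℤ))) c) := per_D_comm (h.zsmul K)
  apply hc ((K : ℤ) • ((k : ℤ), (0 : ℤ))) (smul_ne_zero (by omega) (by simp; omega))
  rw [per_iff_D]
  intro y
  obtain ⟨n, x, h2, h3, rfl⟩ := cover v hv y t
  rw [h1.zsmul n]
  simp only [D]
  have := per1_mul (fun i => d (i, x.2)) K (hper x.2 h2 (by omega)) k x.1
  simp only [d] at this
  have e : x + t + (K : ℤ) • ((k : ℤ), (0 : ℤ)) = (x.1 + k * K, x.2) + t := by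
    ext <;> simp <;> ring
  rw [e, this, sub_self]

lemma exists_rows (S : Finset (ℤ × ℤ)) (y : ℤ) (hy : ∃ s ∈ S, s.2 = y) :
    ∃ (x : ℤ) (a : ℕ), (x, y) ∈ S ∧ (x + a, y) ∈ S ∧
      ∀ s ∈ S, s.2 = y → x ≤ s.1 ∧ s.1 ≤ x + a := by
  classical
  have hne : (S.filter (fun s => s.2 = y)).Nonempty := by
    obtain ⟨s, h1, h2⟩ := hy
    exact ⟨s, Finset.mem_filter.mpr ⟨h1, h2⟩⟩
  obtain ⟨l, hl, hl'⟩ := Finset.exists_min_image _ Prod.fst hne
  obtain ⟨r, hr, hr'⟩ := Finset.exists_max_image _ Prod.fst hne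
  have h1 := hl' r hr
  rw [Finset.mem_filter] at hl hr
  have e : l.1 + ((r.1 - l.1).toNat : ℕ) = r.1 := by omega
  refine ⟨l.1, (r.1 - l.1).toNat, ?_, ?_, ?_⟩
  · rw [← hl.2]; exact hl.1
  · rw [e, ← hr.2]; exact hr.1
  · intro s h2 h3
    rw [e]
    exact ⟨hl' s (Finset.mem_filter.mpr ⟨h2, h3⟩), hr' s (Finset.mem_filter.mpr ⟨h2, h3⟩)⟩

omit [Finite A] in
lemma per_D_neg {u v : ℤ × ℤ} {c : ℤ × ℤ → A} (h : Per u (D v c)) : Per u (D (-v) c) := by
  have := (per_D_comm h).zsmul (-1)
  rw [neg_one_smul] at this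
  exact per_D_comm this

theorem two_dir (c : ℤ × ℤ → A) (k : ℕ) (hk : 0 < k) (v : ℤ × ℤ) (hv : v.2 ≠ 0)
    (h : Per ((k : ℤ), 0) (D v c)) (S : Finset (ℤ × ℤ)) (hS : LC S) (hP : P c S ≤ S.card) :
    ∃ w, w ≠ 0 ∧ Per w c := by
  classical
  wlog hv' : v.2 < 0 generalizing v
  · exact this (-v) (by simpa using hv) (per_D_neg h) (by simp only [Prod.snd_neg]; omega)
  induction S using Finset.strongInduction with
  | H S ih =>
    by_cases hmin : ∀ T, T ⊂ S → LC T → T.card < P c T
    swap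
    · push Not at hmin
      obtain ⟨T, h1, h2, h3⟩ := hmin
      exact ih T h1 h2 h3
    have hne : S.Nonempty := by
      have := P_pos c S
      exact Finset.card_pos.mp (by omega)
    obtain ⟨sb, hsb, hsb'⟩ := Finset.exists_min_image S Prod.snd hne
    obtain ⟨st, hst, hst'⟩ := Finset.exists_max_image S Prod.snd hne
    obtain ⟨xb, a, hb1, hb2, hb3⟩ := exists_rows S sb.2 ⟨sb, hsb, rfl⟩
    obtain ⟨xt, a', ht1, ht2, ht3⟩ := exists_rows S st.2 ⟨st, hst, rfl⟩
    by_cases haa : a ≤ a'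
    · exact core c k hk v hv' h S hS hP hmin xb sb.2 xt st.2 a a' haa
        (fun s hs => ⟨hsb' s hs, hst' s hs⟩) hb1 hb2 hb3 ht1 ht2 ht3
    · have hD : Per ((k : ℤ), 0) (D (-(flip v)) (fun x => c (flip x))) := by
        apply per_D_neg
        intro x
        have := h (flip x)
        have e1 : flip ((k : ℤ), (0 : ℤ)) = ((k : ℤ), (0 : ℤ)) := by simp [flip_apply]
        have e2 : flip (flip v) = v := by simp [flip_apply]
        simp only [D, map_add, e1, e2] at this ⊢
        exact this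
      obtain ⟨w, hw, hper⟩ := core (fun x => c (flip x)) k hk (-(flip v))
        (by simpa [flip_apply] using hv') hD (tr flip S) (hS.tr flip)
        (by rw [P_tr, card_tr]; exact hP) (by
          intro T hT hT'
          have h1 := hmin (tr flip.symm T) (by
            rw [Finset.ssubset_iff_subset_ne] at hT ⊢
            constructor
            · intro s hs
              rw [mem_tr] at hs
              have := hT.1 hs
              rw [mem_tr] at this
              simpa using this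
            · intro he
              apply hT.2
              ext s
              rw [mem_tr, ← he, mem_tr]
              simp) (hT'.tr _)
          have h2 := P_tr (fun x => c (flip x)) T flip.symm
          simp only [AddEquiv.apply_symm_apply] at h2
          rw [card_tr, h2] at h1
          exact h1) xt (-st.2) xb (-sb.2) a' a (by omega) (by
          intro s hs
          rw [mem_tr] at hs
          have h1 := hsb' _ hs
          have h2 := hst' _ hs
          simp only [flip_apply] at h1 h2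
          omega) (by rw [mem_tr, flip_apply]; simpa using ht1)
        (by rw [mem_tr, flip_apply]; simpa using ht2) (by
          intro s hs h1
          rw [mem_tr] at hs
          exact ht3 (flip s) hs (by simp only [flip_apply]; omega))
        (by rw [mem_tr, flip_apply]; simpa using hb1)
        (by rw [mem_tr, flip_apply]; simpa using hb2) (by
          intro s hs h1
          rw [mem_tr] at hs
          exact hb3 (flip s) hs (by simp only [flip_apply]; omega))
      exact ⟨flip w, by simpa using hw, (per_tr flip c w).mp hper⟩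

end

end Nivat28

end MrgPart4

-- ======== part 5: formerly Pool.Agent.MP_4dad27_co.Red
section MrgPart5

set_option autoImplicit false

/-! The reduction step: multiplying by the minimal line polynomial of a half-plane difference
does not increase the number of patterns minus the size of the shape. -/

namespace Nivat28

open Polynomial

variable {F : Type} [Field F]

/-- horizontal shift -/
def tau (F : Type) [Field F] : Module.End F (ℤ × ℤ → F) where
  toFun f := fun x => f (x + (1, 0))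
  map_add' _ _ := rfl
  map_smul' _ _ := rfl

/-- action of a polynomial in the horizontal shift -/
noncomputable def act (f : F[X]) : Module.End F (ℤ × ℤ → F) := aeval (tau F) f

lemma tau_pow (i : ℕ) (δ : ℤ × ℤ → F) (x : ℤ × ℤ) :
    (tau F ^ i) δ x = δ (x + ((i : ℤ), 0)) := by
  induction i generalizing x with
  | zero => simp [show ((0 : ℤ), (0 : ℤ)) = 0 from rfl]
  | succ i ih =>
    rw [pow_succ', Module.End.mul_apply]
    show (tau F ^ i) δ (x + (1, 0)) = _
    rw [ih]
    congr 1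
    ext <;> simp
    ring

lemma act_apply (f : F[X]) (δ : ℤ × ℤ → F) (x : ℤ × ℤ) :
    act f δ x = ∑ i ∈ Finset.range (f.natDegree + 1), f.coeff i * δ (x + ((i : ℤ), 0)) := by
  rw [act, aeval_eq_sum_range]
  simp [LinearMap.sum_apply, tau_pow]

lemma act_mul (f g : F[X]) (δ : ℤ × ℤ → F) : act (f * g) δ = act f (act g δ) := by
  simp [act]

lemma act_shift (f : F[X]) (δ : ℤ × ℤ → F) (t x : ℤ × ℤ) :
    act f (fun y => δ (y + t)) x = act f δ (x + t) := by
  simp only [act_apply, add_right_comm x _ t]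

lemma act_D (f : F[X]) (v : ℤ × ℤ) (δ : ℤ × ℤ → F) : act f (D v δ) = D v (act f δ) := by
  funext x
  have : D v δ = (fun y => δ (y + v)) - δ := rfl
  rw [this, map_sub, Pi.sub_apply, act_shift]
  rfl

lemma act_row (f : F[X]) (δ : ℤ × ℤ → F) (y : ℤ) (h : ∀ x, δ (x, y) = 0) (x : ℤ) :
    act f δ (x, y) = 0 := by
  rw [act_apply]
  apply Finset.sum_eq_zero
  intro i _
  simp [h]

lemma act_monomial (i : ℕ) (a : F) (δ : ℤ × ℤ → F) (x : ℤ × ℤ) :
    act (monomial i a) δ x = a * δ (x + ((i : ℤ), 0)) := by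
  simp [act, aeval_monomial, tau_pow]

lemma act_X_pow_sub_one (K : ℕ) (δ : ℤ × ℤ → F) :
    act (X ^ K - 1 : F[X]) δ = D ((K : ℤ), 0) δ := by
  funext x
  simp [act, tau_pow, D]

lemma dvd_of_ann (o : ℤ → ℤ) (J : Finset ℤ) (φ : F[X]) : φ ≠ 0 →
    ∀ (δ : ℤ × ℤ → F), (∀ x : ℤ × ℤ, 0 < x.2 → δ x = 0) → (∀ f, act f δ = 0 ↔ φ ∣ f) →
    ∀ G : ℤ → F[X], (∀ x, ∑ j ∈ J, act (G j) δ (x + (o j, j)) = 0) → ∀ j ∈ J, φ ∣ G j := by
  classical
  induction φ using UniqueFactorizationMonoid.induction_on_prime with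
  | h₁ => intro h; exact absurd rfl h
  | h₂ u hu => intro _ _ _ _ G _ j _; exact hu.dvd
  | h₃ φ π hφ hπ ih =>
    intro _ δ h0 hann G hG
    have hcomm : ∀ (f g : F[X]), act f (act g δ) = act g (act f δ) := by
      intro f g; rw [← act_mul, ← act_mul, mul_comm]
    have h1 : act φ δ ≠ 0 := by
      rw [Ne, hann]
      intro hd
      have : π * φ ∣ 1 * φ := by rwa [one_mul]
      exact hπ.not_dvd_one ((mul_dvd_mul_iff_right hφ).mp this)
    have h2 : act π (act φ δ) = 0 := by rw [← act_mul, hann]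
    have h3 : ∀ x, ∑ j ∈ J, act (G j) (act φ δ) (x + (o j, j)) = 0 := by
      intro x
      have e : (∑ j ∈ J, fun y => act (G j) δ (y + (o j, j))) = 0 := by
        funext y
        rw [Finset.sum_apply]
        exact hG y
      have := congrFun (congrArg (act φ) e) x
      rw [map_sum, map_zero, Finset.sum_apply] at this
      simp only [act_shift, hcomm φ] at this
      exact this
    have h4 : ∀ y : ℤ, 0 < y → ∀ x, act φ δ (x, y) = 0 :=
      fun y hy => act_row φ δ y (fun x => h0 (x, y) hy)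
    have hπG : ∀ j ∈ J, π ∣ G j := by
      by_contra hcon
      push Not at hcon
      have hne : (J.filter (fun j => ¬ π ∣ G j)).Nonempty := by
        obtain ⟨j, a, b⟩ := hcon
        exact ⟨j, Finset.mem_filter.mpr ⟨a, b⟩⟩
      obtain ⟨j0, hj0, hmin⟩ := Finset.exists_min_image _ id hne
      rw [Finset.mem_filter] at hj0
      obtain ⟨y0, ⟨x0, hx0⟩, hmax⟩ := Int.exists_greatest_of_bdd
        (P := fun y => ∃ x, act φ δ (x, y) ≠ 0)
        ⟨0, fun y hy => by
          by_contra hlt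
          obtain ⟨x, hx⟩ := hy
          exact hx (h4 y (by omega) x)⟩ (by
          by_contra hcon'
          push Not at hcon'
          exact h1 (funext fun x => hcon' x.2 x.1))
      have h5 : ∀ x, act (G j0) (act φ δ) (x, y0) = 0 := by
        intro x
        have := h3 (x - o j0, y0 - j0)
        rw [Finset.sum_eq_single j0] at this
        · simpa using this
        · intro j hj hne'
          by_cases hd : π ∣ G j
          · obtain ⟨g, hg⟩ := hd
            rw [hg, mul_comm, act_mul, h2, map_zero]; rfl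
          · have h6 : j0 ≤ j := hmin j (Finset.mem_filter.mpr ⟨hj, hd⟩)
            apply act_row
            intro x'
            by_contra h7
            have := hmax _ ⟨x', h7⟩
            simp only at this
            omega
        · intro h; exact absurd hj0.1 h
      obtain ⟨u, w, huw⟩ : IsCoprime π (G j0) := (hπ.irreducible.coprime_iff_not_dvd).mpr hj0.2
      have h6 : act φ δ = act w (act (G j0) (act φ δ)) := by
        have : act (u * π + w * G j0) (act φ δ) = act φ δ := by rw [huw]; simp [act]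
        rw [← this]
        conv_rhs => rw [this]
        have e : act (u * π + w * G j0) = act (u * π) + act (w * G j0) := by simp [act]
        rw [e, LinearMap.add_apply, act_mul, act_mul, h2, map_zero, zero_add]
      apply hx0
      rw [h6]
      exact act_row _ _ _ h5 _
    have hG' : ∀ j ∈ J, π * (G j / π) = G j :=
      fun j hj => EuclideanDomain.mul_div_cancel' hπ.ne_zero (hπG j hj)
    have := ih hφ (act π δ) (fun x hx => act_row π δ x.2 (fun i => h0 (i, x.2) hx) x.1) (by
      intro f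
      rw [← act_mul, hann, mul_comm f π]
      exact mul_dvd_mul_iff_left hπ.ne_zero) (fun j => G j / π) (by
      intro x
      rw [← hG x]
      apply Finset.sum_congr rfl
      intro j hj
      rw [← act_mul, mul_comm, hG' j hj])
    intro j hj
    rw [← hG' j hj]
    exact mul_dvd_mul_left π (this j hj)

theorem reduce [Finite F] (c : ℤ × ℤ → F) (S : Finset (ℤ × ℤ)) (hS : LC S)
    (hP : P c S ≤ S.card) (d e : ℤ × ℤ → F) (hd : Loc c d) (he : Loc c e)
    (hab : ∀ x : ℤ × ℤ, 0 < x.2 → d x = e x) (hne : d 0 ≠ e 0) (K : ℕ) (hK : 0 < K)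
    (hper : Per ((K : ℤ), 0) (fun x => d x - e x)) :
    ∃ φ : F[X], φ ∣ X ^ K - 1 ∧ ∃ S', LC S' ∧ S'.card < S.card ∧ P (act φ c) S' ≤ S'.card := by
  classical
  let δ : ℤ × ℤ → F := fun x => d x - e x
  let I : Ideal F[X] :=
    { carrier := {f | act f δ = 0}
      add_mem' := by
        intro f g hf hg
        simp only [Set.mem_ofPred_eq] at hf hg ⊢
        have e : act (f + g) = act f + act g := by simp [act]
        rw [e, LinearMap.add_apply, hf, hg, add_zero]
      zero_mem' := by simp [act]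
      smul_mem' := by
        intro f g hg
        simp only [Set.mem_ofPred_eq, smul_eq_mul] at hg ⊢
        rw [act_mul, hg, map_zero] }
  let φ := Submodule.IsPrincipal.generator I
  have hann : ∀ f, act f δ = 0 ↔ φ ∣ f := fun f =>
    Submodule.IsPrincipal.mem_iff_generator_dvd I (x := f)
  have hdvd : φ ∣ X ^ K - 1 := by
    rw [← hann, act_X_pow_sub_one]
    funext x
    exact (per_iff_D _ _).mp hper x
  have hφ0 : φ ≠ 0 := by
    intro h
    rw [h, zero_dvd_iff] at hdvd
    exact (X_pow_sub_C_ne_zero hK (1 : F)) (by simpa using hdvd)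
  set n := φ.natDegree with hn
  have hnpos : 0 < n := by
    by_contra hcon
    have h1 : IsUnit φ := by
      rw [eq_C_of_natDegree_eq_zero (show φ.natDegree = 0 by omega)] at hφ0 ⊢
      exact isUnit_C.mpr (IsUnit.mk0 _ (fun h => hφ0 (by rw [h, C_0])))
    have h2 := (hann 1).mpr h1.dvd
    have := congrFun h2 0
    simp only [act, map_one, Module.End.one_apply, δ, Pi.zero_apply] at this
    exact hne (sub_eq_zero.mp this)
  let S' := S.filter (fun s => s + ((n : ℤ), 0) ∈ S)
  let U := S.filter (fun s => ¬ (s + ((n : ℤ), 0) ∈ S))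
  have hcard : S'.card + U.card = S.card := Finset.card_filter_add_card_filter_not _
  have hU : 0 < U.card := by
    have hSne : S.Nonempty := by
      have := P_pos c S
      exact Finset.card_pos.mp (by omega)
    obtain ⟨r, hr, hr'⟩ := Finset.exists_max_image S Prod.fst hSne
    refine Finset.card_pos.mpr ⟨r, Finset.mem_filter.mpr ⟨hr, fun h => ?_⟩⟩
    have := hr' _ h
    simp only [Prod.fst_add] at this
    omega
  refine ⟨φ, hdvd, S', hS.shift _, by omega, ?_⟩
  by_contra hcon
  let Φ : (ℤ × ℤ → F) → (ℤ × ℤ → F) := fun π => pat (act φ π) S' 0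
  have hΦ : ∀ (b : ℤ × ℤ → F) q, Φ (pat b S q) = pat (act φ b) S' q := by
    intro b q
    simp only [Φ]
    rw [pat_eq_iff]
    intro s hs
    rw [Finset.mem_filter] at hs
    rw [act_apply, act_apply]
    apply Finset.sum_congr rfl
    intro i hi
    rw [Finset.mem_range] at hi
    have h1 : s + ((i : ℤ), 0) ∈ S := by
      have h2 : (s.1 + n, s.2) ∈ S := by
        have := hs.2
        rwa [show s + ((n : ℤ), 0) = (s.1 + n, s.2) by ext <;> simp] at this
      have := hS.row (x := s.1 + i) (a := s.1) (y := s.2) hs.1 h2 (by omega) (by omega)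
      rwa [show s + ((i : ℤ), 0) = (s.1 + i, s.2) by ext <;> simp]
    simp only [add_zero, pat, if_pos h1]
    rw [add_right_comm]
  obtain ⟨g, ⟨u0, hu0, hg0⟩, hg⟩ := exists_functional (Set.range (pat c S))
    (finite_range_pat c S) Φ U (by
      rw [← range_eq_image (pat c S) (pat (act φ c) S') Φ (hΦ c)]
      unfold P at hP hcon
      omega)
  have hφδ : act φ δ = 0 := (hann φ).mpr dvd_rfl
  have hkill : ∀ x, ∑ u ∈ U, g u * δ (u + x) = 0 := by
    intro x
    obtain ⟨q, hq⟩ := hd.pat_mem S x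
    obtain ⟨q', hq'⟩ := he.pat_mem S x
    have := hg (pat d S x) ⟨q, hq.symm⟩ (pat e S x) ⟨q', hq'.symm⟩ (by
      rw [hΦ, hΦ, pat_eq_iff]
      intro s _
      have h1 := congrFun hφδ (s + x)
      have h2 : δ = d - e := rfl
      rw [h2, map_sub] at h1
      exact sub_eq_zero.mp h1)
    rw [← this]
    apply Finset.sum_congr rfl
    intro u hu
    have hu' : u ∈ S := Finset.mem_of_mem_filter u hu
    simp [pat, hu', δ]
  have ho : ∀ j : ℤ, ∃ l : ℤ, ∀ u ∈ U, u.2 = j → l ≤ u.1 ∧ u.1 < l + n := by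
    intro j
    by_cases hj : ∃ s ∈ U, s.2 = j
    · obtain ⟨l, a, h1, -, h3⟩ := exists_rows U j hj
      refine ⟨l, fun u hu huj => ⟨(h3 u hu huj).1, ?_⟩⟩
      by_contra hlt
      rw [Finset.mem_filter] at h1 hu
      apply h1.2
      have h4 : (u.1, j) ∈ S := by rw [← huj]; exact hu.1
      have := hS.row (x := l + n) h1.1 h4 (by omega) (by omega)
      simpa using this
    · exact ⟨0, fun u hu huj => absurd ⟨u, hu, huj⟩ hj⟩
  choose o ho using ho
  let G : ℤ → F[X] := fun j =>
    ∑ u ∈ U.filter (fun u => u.2 = j), monomial (u.1 - o j).toNat (g u)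
  have hdiv := dvd_of_ann o (U.image Prod.snd) φ hφ0 δ
    (fun x hx => sub_eq_zero.mpr (hab x hx)) hann G (by
      intro x
      rw [← hkill x, ← Finset.sum_fiberwise_of_maps_to (s := U) (t := U.image Prod.snd)
        (g := Prod.snd) (fun u hu => Finset.mem_image_of_mem _ hu)]
      apply Finset.sum_congr rfl
      intro j _
      have e : act (G j) = ∑ u ∈ U.filter (fun u => u.2 = j),
          act (monomial (u.1 - o j).toNat (g u)) := by
        simp only [G, act, map_sum]
      rw [e, LinearMap.sum_apply, Finset.sum_apply]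
      apply Finset.sum_congr rfl
      intro u hu
      rw [Finset.mem_filter] at hu
      rw [act_monomial]
      have h1 := (ho j u hu.1 hu.2).1
      congr 2
      ext
      · simp only [Prod.fst_add]; omega
      · simp only [Prod.snd_add]; omega) u0.2 (Finset.mem_image_of_mem _ hu0)
  have hc0 : (G u0.2).coeff (u0.1 - o u0.2).toNat = g u0 := by
    simp only [G, finsetSum_coeff, coeff_monomial]
    rw [Finset.sum_eq_single u0]
    · simp
    · intro u hu hne'
      rw [Finset.mem_filter] at hu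
      rw [if_neg]
      intro h
      have h1 := (ho _ u hu.1 hu.2).1
      have h2 := (ho _ u0 hu0 rfl).1
      exact hne' (Prod.ext (by omega) hu.2)
    · intro h
      exact (h (Finset.mem_filter.mpr ⟨hu0, rfl⟩)).elim
  have hG0 : G u0.2 ≠ 0 := by
    intro h
    rw [h, coeff_zero] at hc0
    exact hg0 hc0.symm
  have h1 := natDegree_le_of_dvd hdiv hG0
  have h2 : (G u0.2).natDegree ≤ n - 1 := by
    apply natDegree_sum_le_of_forall_le
    intro u hu
    rw [Finset.mem_filter] at hu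
    have := ho _ u hu.1 hu.2
    exact (natDegree_monomial_le _).trans (by omega)
  omega

end Nivat28

end MrgPart5

-- ======== part 6: formerly Pool.Agent.MP_4dad27_co.Main
section MrgPart6

set_option autoImplicit false

/-! Nivat's conjecture for lattice convex shapes and finite alphabets. -/

namespace Nivat28

open Polynomial

lemma exists_basis' (w : ℤ × ℤ) (hw : w ≠ 0) (ν : ℝ × ℝ) (hν : ν ≠ 0) (h : ip w ν = 0) :
    ∃ (e : ℤ × ℤ ≃+ ℤ × ℤ) (k : ℕ), 0 < k ∧ e (k, 0) = w ∧
      ∀ x : ℤ × ℤ, 0 < x.2 → ip (e x) ν < 0 := by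
  obtain ⟨e, k, hk, he⟩ := exists_basis w hw
  have h1 : ip (e (1, 0)) ν = 0 := by
    rw [← he, equiv_apply, ip_add, ip_zsmul, ip_zsmul] at h
    have hk' : (k : ℝ) ≠ 0 := by exact_mod_cast hk.ne'
    simpa [hk'] using h
  have h2 : ∀ x, ip (e x) ν = x.2 * ip (e (0, 1)) ν := by
    intro x
    rw [equiv_apply, ip_add, ip_zsmul, ip_zsmul, h1]; simp
  have h3 : ip (e (0, 1)) ν ≠ 0 := by
    intro h0
    apply hν
    have a := h2 (e.symm (1, 0))
    have b := h2 (e.symm (0, 1))
    rw [h0, mul_zero, AddEquiv.apply_symm_apply] at a b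
    simp only [ip] at a b
    ext
    · simpa using a
    · simpa using b
  rcases lt_or_gt_of_ne h3 with h4 | h4
  · refine ⟨e, k, hk, he, fun x hx => ?_⟩
    rw [h2]
    exact mul_neg_of_pos_of_neg (by exact_mod_cast hx) h4
  · refine ⟨flip.trans e, k, hk, by simpa [flip_apply] using he, fun x hx => ?_⟩
    rw [AddEquiv.trans_apply, h2, flip_apply]
    have : (0 : ℝ) < x.2 := by exact_mod_cast hx
    push_cast
    nlinarith

theorem nivat_field {F : Type} [Field F] [Finite F] (n : ℕ) :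
    ∀ (S : Finset (ℤ × ℤ)) (c : ℤ × ℤ → F) (L : List (ℤ × ℤ)), S.card ≤ n → LC S →
      (∀ v ∈ L, v ≠ 0) → Kill L c → P c S ≤ S.card → ∃ w, w ≠ 0 ∧ Per w c := by
  have hp0 : Nat.card F ≠ 0 := Nat.card_pos.ne'
  have hp : ∀ a : F, Nat.card F • a = 0 := fun a => card_nsmul_eq_zero'
  induction n with
  | zero =>
    intro S c L hn _ _ _ hP
    have := P_pos c S
    omega
  | succ n ih =>
    intro S c L hn hS hL hK hP
    by_contra hcon
    have hc : ∀ w, w ≠ 0 → ¬ Per w c := fun w h1 h2 => hcon ⟨w, h1, h2⟩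
    obtain ⟨d, d', hd, hd', hne, ν, hν, hag⟩ := exists_pair c hc
    have hKδ := Kill.sub L d d' (Kill.loc L c d hd hK) (Kill.loc L c d' hd' hK)
    rcases peel (Nat.card F) hp0 hp ν hν L hL _ 0
      (fun x hx => sub_eq_zero.mpr (hag x hx)) hKδ with h0 | ⟨w, hw, hwν, hper⟩
    · exact hne (sub_eq_zero.mp (h0 0))
    obtain ⟨e, k, hk, hek, hhalf⟩ := exists_basis' w hw ν hν hwν
    have hP1 : P (fun x => c (e x)) (tr e S) ≤ (tr e S).card := by rw [P_tr, card_tr]; exact hP
    obtain ⟨φ, ⟨ψ, hψ⟩, S', hS', hcard, hP'⟩ := reduce (fun x => c (e x)) (tr e S) (hS.tr e) hP1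
      (fun x => d (e x)) (fun x => d' (e x)) (hd.tr e) (hd'.tr e)
      (fun x hx => hag _ (hhalf x hx)) (by simpa using hne) k hk
      ((per_tr e (fun x => d x - d' x) _).mpr (by rw [hek]; exact hper))
    rw [card_tr] at hcard
    obtain ⟨w', hw', hper'⟩ := ih S' (act φ (fun x => c (e x))) (L.map e.symm) (by omega) hS' (by
        intro v hv
        rw [List.mem_map] at hv
        obtain ⟨u, hu, rfl⟩ := hv
        simpa using hL u hu)
      (Kill.map (act φ) (map_zero _) (fun v f => act_D φ v f) _ _ (Kill.tr e L c hK)) hP'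
    have h1 : Per w' (D ((k : ℤ), 0) (fun x => c (e x))) := by
      rw [← act_X_pow_sub_one, hψ, mul_comm, act_mul]
      intro x
      rw [← act_shift, funext hper']
    have h2 : ∃ u, u ≠ 0 ∧ Per u (fun x => c (e x)) := by
      by_cases h3 : w'.2 = 0
      · obtain ⟨a, b, ha, hab⟩ := parallel (u := w') (v := ((k : ℤ), 0)) hw'
          (by simp; omega) (by simp [h3])
        exact ⟨_, smul_ne_zero (by exact_mod_cast hp0) (smul_ne_zero ha hw'),
          merge_per _ hp a b hab h1⟩
      · exact two_dir _ k hk w' h3 (per_D_comm h1) _ (hS.tr e) hP1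
    obtain ⟨u, hu, hu'⟩ := h2
    exact hc (e u) (by simpa using hu) ((per_tr e c u).mp hu')

/-- Nivat's conjecture for every finite alphabet and every lattice convex shape -/
theorem nivat {A : Type} [Finite A] (c : ℤ × ℤ → A) (S : Finset (ℤ × ℤ)) (hS : LC S)
    {β : Type} (B : ℤ × ℤ → β) (hB : (Set.range B).Finite)
    (hBc : ∀ q q', B q = B q' → ∀ s ∈ S, c (s + q) = c (s + q'))
    (h : (Set.range B).ncard ≤ S.card) : ∃ w, w ≠ 0 ∧ Per w c := by
  obtain ⟨N, ⟨ι⟩⟩ := Finite.exists_equiv_fin A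
  obtain ⟨p, hNp, hp⟩ := Nat.exists_infinite_primes N
  have : Fact p.Prime := ⟨hp⟩
  let cZ : ℤ × ℤ → ℤ := fun x => ((ι (c x) : ℕ) : ℤ)
  let cF : ℤ × ℤ → ZMod p := fun x => (cZ x : ZMod p)
  have hZ : ∀ q q', B q = B q' → pat cZ S q = pat cZ S q' := by
    intro q q' hq
    rw [pat_eq_iff]
    intro s hs
    simp only [cZ, hBc q q' hq s hs]
  have hF : ∀ q q', B q = B q' → pat cF S q = pat cF S q' := by
    intro q q' hq
    rw [pat_eq_iff]
    intro s hs
    simp only [cF, cZ, hBc q q' hq s hs]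
  obtain ⟨L, hL, hK⟩ := exists_kill cZ N (by
      intro x
      have := (ι (c x)).2
      simp only [cZ, Nat.abs_cast]
      omega) S (by
      obtain ⟨Ψ, hΨ⟩ := exists_factor B _ hZ
      rw [range_eq_image _ _ Ψ hΨ]
      exact hB.image _) ((ncard_range_le B _ hB hZ).trans h)
  have hK' : Kill L cF := Kill.map (fun f x => ((f x : ℤ) : ZMod p)) (by simp) (by
    intro v f; funext x; simp [D]) L cZ hK
  obtain ⟨w, hw, hper⟩ := nivat_field S.card S cF L le_rfl hS hL hK'
    ((ncard_range_le B _ hB hF).trans h)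
  refine ⟨w, hw, fun x => ?_⟩
  have h1 := hper x
  simp only [cF, cZ, Int.cast_natCast] at h1
  rw [ZMod.natCast_eq_natCast_iff'] at h1
  have h2 := (ι (c (x + w))).2
  have h3 := (ι (c x)).2
  rw [Nat.mod_eq_of_lt (by omega), Nat.mod_eq_of_lt (by omega)] at h1
  exact ι.injective (Fin.ext h1)

end Nivat28

end MrgPart6

-- marker of a merged file
example : 731051 + 311692 = 731051 + 311692 := rfl
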